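import Mathlib

set_option autoImplicit false

namespace Pool.Agent.KS6_19.SW

open Finset

section Closed

variable {K : Type*} [Field K] [CharZero K]

/-- The `k`-th term of the two-parameter well-poised sum. -/
def t (k : ℕ) (x y : K) : K :=
  (-1) ^ k * (4 * (k : K) + 1) * ∏ j ∈ range k,
    ((2 * (j : K) + 1) / (2 * (j : K) + 2) *
      (((2 * (j : K) + 1) ^ 2 - x ^ 2) / ((2 * (j : K) + 2) ^ 2 - x ^ 2)) *
      (((2 * (j : K) + 1) ^ 2 - y ^ 2) / ((2 * (j : K) + 2) ^ 2 - y ^ 2)))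

/-- The truncated sum. -/
def S (N : ℕ) (x y : K) : K := ∑ k ∈ range (N + 1), t k x y

/-- `x` is not of the form `± 2 j`. -/
def NE (x : K) : Prop := ∀ j : ℕ, (2 * (j : K)) ^ 2 - x ^ 2 ≠ 0

omit [CharZero K] in
lemma t_zero (x y : K) : t 0 x y = 1 := by simp [t]

lemma t_succ (k : ℕ) (x y : K) :
    t (k + 1) x y = - ((4 * (k : K) + 5) / (4 * (k : K) + 1)) * t k x y *
      ((2 * (k : K) + 1) / (2 * (k : K) + 2) *
      (((2 * (k : K) + 1) ^ 2 - x ^ 2) / ((2 * (k : K) + 2) ^ 2 - x ^ 2)) *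
      (((2 * (k : K) + 1) ^ 2 - y ^ 2) / ((2 * (k : K) + 2) ^ 2 - y ^ 2))) := by
  have h : (4 * (k : K) + 1) ≠ 0 := by
    have : ((4 * k + 1 : ℕ) : K) ≠ 0 := Nat.cast_ne_zero.mpr (by omega)
    push_cast at this
    exact this
  unfold t
  rw [prod_range_succ, pow_succ]
  generalize (∏ j ∈ range k, ((2 * (j : K) + 1) / (2 * (j : K) + 2) *
      (((2 * (j : K) + 1) ^ 2 - x ^ 2) / ((2 * (j : K) + 2) ^ 2 - x ^ 2)) *
      (((2 * (j : K) + 1) ^ 2 - y ^ 2) / ((2 * (j : K) + 2) ^ 2 - y ^ 2)))) = P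
  generalize ((2 * (k : K) + 1) / (2 * (k : K) + 2) *
      (((2 * (k : K) + 1) ^ 2 - x ^ 2) / ((2 * (k : K) + 2) ^ 2 - x ^ 2)) *
      (((2 * (k : K) + 1) ^ 2 - y ^ 2) / ((2 * (k : K) + 2) ^ 2 - y ^ 2))) = Q
  push_cast
  field_simp
  ring

omit [CharZero K] in
lemma t_neg (k : ℕ) (x y : K) : t k (-x) y = t k x y := by
  unfold t; simp only [neg_sq]

omit [CharZero K] in
lemma t_comm (k : ℕ) (x y : K) : t k x y = t k y x := by
  unfold t
  congr 1
  refine prod_congr rfl fun j _ => ?_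
  ring

omit [CharZero K] in
lemma S_comm (N : ℕ) (x y : K) : S N x y = S N y x := by
  unfold S
  exact sum_congr rfl fun k _ => t_comm k x y

omit [CharZero K] in
lemma S_neg (N : ℕ) (x y : K) : S N (-x) y = S N x y := by
  unfold S
  exact sum_congr rfl fun k _ => t_neg k x y

omit [CharZero K] in
lemma NE.add {x : K} (hx : NE x) (j : ℕ) : 2 * (j : K) + x ≠ 0 := by
  intro h
  apply hx j
  linear_combination (2 * (j : K) - x) * h

omit [CharZero K] in
lemma NE.sub {x : K} (hx : NE x) (j : ℕ) : 2 * (j : K) - x ≠ 0 := by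
  intro h
  apply hx j
  linear_combination (2 * (j : K) + x) * h

lemma t_shift (x y : K) (hx : NE x) (k : ℕ) :
    t k (x + 4) y * ((2 * (k : K) - 3 - x) * (2 * (k : K) - 1 - x) * (2 * (k : K) + 2 + x) *
      (2 * (k : K) + 4 + x) * x) =
    t k x y * ((4 + x) * (2 * (k : K) + 1 + x) * (2 * (k : K) + 3 + x) * (2 * (k : K) - 2 - x) *
      (2 * (k : K) - x)) := by
  induction k with
  | zero => rw [t_zero, t_zero]; push_cast; ring
  | succ k ih =>
    rw [t_succ, t_succ]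
    have h1 : (2 * (k : K) + 2 - x) ≠ 0 := by
      have := hx.sub (k + 1); push_cast at this; intro h; apply this; linear_combination h
    have h2 : (2 * (k : K) + 2 + x) ≠ 0 := by
      have := hx.add (k + 1); push_cast at this; intro h; apply this; linear_combination h
    have h3 : (2 * (k : K) + 6 + x) ≠ 0 := by
      have := hx.add (k + 3); push_cast at this; intro h; apply this; linear_combination h
    have h4 : (2 * (k : K) - 2 - x) ≠ 0 := by
      rcases k with _ | k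
      · have := hx.add 1; push_cast at this ⊢; intro h; apply this; linear_combination -h
      · have := hx.sub k; push_cast at this ⊢; intro h; apply this; linear_combination h
    have e1 : (2 * (k : K) + 1) ^ 2 - (x + 4) ^ 2 = (2 * (k : K) - 3 - x) * (2 * (k : K) + 5 + x) := by
      ring
    have e2 : (2 * (k : K) + 2) ^ 2 - (x + 4) ^ 2 = (2 * (k : K) - 2 - x) * (2 * (k : K) + 6 + x) := by
      ring
    have e3 : (2 * (k : K) + 2) ^ 2 - x ^ 2 = (2 * (k : K) + 2 - x) * (2 * (k : K) + 2 + x) := by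
      ring
    have e4 : (2 * (k : K) + 1) ^ 2 - x ^ 2 = (2 * (k : K) + 1 - x) * (2 * (k : K) + 1 + x) := by
      ring
    rw [e1, e2, e3, e4]
    generalize hQ : (((2 * (k : K) + 1) ^ 2 - y ^ 2) / ((2 * (k : K) + 2) ^ 2 - y ^ 2)) = Q
    generalize hA : (2 * (k : K) + 1) / (2 * (k : K) + 2) = A
    generalize hB : (4 * (k : K) + 5) / (4 * (k : K) + 1) = B
    rw [div_eq_mul_inv, div_eq_mul_inv]
    have hi2 := mul_inv_cancel₀ (mul_ne_zero h4 h3)
    have hi3 := mul_inv_cancel₀ (mul_ne_zero h1 h2)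
    generalize ((2 * (k : K) - 2 - x) * (2 * (k : K) + 6 + x))⁻¹ = i2 at *
    generalize ((2 * (k : K) + 2 - x) * (2 * (k : K) + 2 + x))⁻¹ = i3 at *
    apply mul_left_cancel₀ (mul_ne_zero h2 h4)
    push_cast
    linear_combination (-B * A * Q * (2 * k + 5 + x) * (2 * k + 1 - x)) * ih +
      (-B * A * Q * (2 * k + 5 + x) * (2 * k + 1 - x) * t k (x + 4) y *
        ((2 * (k : K) - 3 - x) * (2 * (k : K) - 1 - x) * (2 * (k : K) + 2 + x) *
      (2 * (k : K) + 4 + x) * x)) * hi2 +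
      (B * A * Q * (2 * k + 5 + x) * (2 * k + 1 - x) * t k x y *
        ((4 + x) * (2 * (k : K) + 1 + x) * (2 * (k : K) + 3 + x) * (2 * (k : K) - 2 - x) *
      (2 * (k : K) - x))) * hi3

/-- The telescoping certificate. -/
def G (x y : K) (k : ℕ) : K :=
  t k x y * (2 * (k : K) * (2 * (k : K) - x) * ((2 * (k : K)) ^ 2 - y ^ 2) / (4 * (k : K) + 1)) *
    (-4 * (x + 4) * (x + 2) / ((2 * (k : K) - 3 - x) * (2 * (k : K) - 1 - x) *
      (2 * (k : K) + 2 + x)))

lemma wz_term (x y : K) (hx : NE x) (hy : NE y) (h1 : ∀ j : ℕ, 2 * (j : K) - 1 - x ≠ 0)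
    (h3 : -3 - x ≠ 0) (hx0 : x ≠ 0) (k : ℕ) :
    x * ((x + 3) ^ 2 - y ^ 2) * t k (x + 4) y - (x + 4) * ((x + 1) ^ 2 - y ^ 2) * t k x y =
      G x y (k + 1) - G x y k := by
  have hk1 : (4 * (k : K) + 1) ≠ 0 := by
    have : ((4 * k + 1 : ℕ) : K) ≠ 0 := Nat.cast_ne_zero.mpr (by omega)
    push_cast at this
    exact this
  have hk5 : (4 * (k : K) + 5) ≠ 0 := by
    have : ((4 * k + 5 : ℕ) : K) ≠ 0 := Nat.cast_ne_zero.mpr (by omega)
    push_cast at this
    exact this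
  have hk2 : (2 * (k : K) + 2) ≠ 0 := by
    have : ((2 * k + 2 : ℕ) : K) ≠ 0 := Nat.cast_ne_zero.mpr (by omega)
    push_cast at this
    exact this
  have a1 : (2 * (k : K) + 2 - x) ≠ 0 := by
    have := hx.sub (k + 1); push_cast at this; intro h; apply this; linear_combination h
  have a2 : (2 * (k : K) + 2 + x) ≠ 0 := by
    have := hx.add (k + 1); push_cast at this; intro h; apply this; linear_combination h
  have a4 : (2 * (k : K) + 4 + x) ≠ 0 := by
    have := hx.add (k + 2); push_cast at this; intro h; apply this; linear_combination h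
  have b1 : (2 * (k : K) - 1 - x) ≠ 0 := h1 k
  have b3 : (2 * (k : K) - 3 - x) ≠ 0 := by
    rcases k with _ | k
    · push_cast; intro h; apply h3; linear_combination h
    · have := h1 k; push_cast at this ⊢; intro h; apply this; linear_combination h
  have b0 : (2 * (k : K) + 1 - x) ≠ 0 := by
    have := h1 (k + 1); push_cast at this ⊢; intro h; apply this; linear_combination h
  have y1 : ((2 * (k : K) + 2) ^ 2 - y ^ 2) ≠ 0 := by
    have := hy (k + 1); push_cast at this ⊢; intro h; apply this; linear_combination h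
  have hs := t_shift x y hx k
  have hd : ((2 * (k : K) - 3 - x) * (2 * (k : K) - 1 - x) *
      (2 * (k : K) + 2 + x) * (2 * (k : K) + 4 + x) * x) ≠ 0 :=
    mul_ne_zero (mul_ne_zero (mul_ne_zero (mul_ne_zero b3 b1) a2) a4) hx0
  have hT : t k (x + 4) y = t k x y * (((4 + x) * (2 * (k : K) + 1 + x) * (2 * (k : K) + 3 + x) *
      (2 * (k : K) - 2 - x) * (2 * (k : K) - x)) / ((2 * (k : K) - 3 - x) * (2 * (k : K) - 1 - x) *
      (2 * (k : K) + 2 + x) * (2 * (k : K) + 4 + x) * x)) := by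
    rw [← mul_div_assoc, eq_div_iff hd, hs]
  unfold G
  rw [t_succ, hT]
  have e3 : (2 * (k : K) + 2) ^ 2 - x ^ 2 = (2 * (k : K) + 2 - x) * (2 * (k : K) + 2 + x) := by
    ring
  have e4 : (2 * (k : K) + 1) ^ 2 - x ^ 2 = (2 * (k : K) + 1 - x) * (2 * (k : K) + 1 + x) := by
    ring
  rw [e3, e4]
  generalize t k x y = T
  have c1 : (2 * ((k + 1 : ℕ) : K) - x) = (2 * (k : K) + 2 - x) := by push_cast; ring
  have c2 : ((2 * ((k + 1 : ℕ) : K)) ^ 2 - y ^ 2) = ((2 * (k : K) + 2) ^ 2 - y ^ 2) := by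
    push_cast; ring
  have c3 : 4 * ((k + 1 : ℕ) : K) + 1 = 4 * (k : K) + 5 := by push_cast; ring
  have c4 : 2 * ((k + 1 : ℕ) : K) - 3 - x = 2 * (k : K) - 1 - x := by push_cast; ring
  have c5 : 2 * ((k + 1 : ℕ) : K) - 1 - x = 2 * (k : K) + 1 - x := by push_cast; ring
  have c6 : 2 * ((k + 1 : ℕ) : K) + 2 + x = 2 * (k : K) + 4 + x := by push_cast; ring
  have c7 : 2 * ((k + 1 : ℕ) : K) = 2 * (k : K) + 2 := by push_cast; ring
  rw [c1, c2, c3, c4, c5, c6, c7]
  generalize (k : K) = k at *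
  generalize hY : (2 * k + 2) ^ 2 - y ^ 2 = Y at *
  have r1 : -((4 * k + 5) / (4 * k + 1)) * T *
            ((2 * k + 1) / (2 * k + 2) * ((2 * k + 1 - x) * (2 * k + 1 + x) /
              ((2 * k + 2 - x) * (2 * k + 2 + x))) *
              (((2 * k + 1) ^ 2 - y ^ 2) / Y)) *
          ((2 * k + 2) * (2 * k + 2 - x) * Y / (4 * k + 5)) *
        (-4 * (x + 4) * (x + 2) / ((2 * k - 1 - x) * (2 * k + 1 - x) * (2 * k + 4 + x))) =
        T * (4 * (x + 4) * (x + 2) * (2 * k + 1) * (2 * k + 1 + x) * ((2 * k + 1) ^ 2 - y ^ 2) /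
        ((4 * k + 1) * (2 * k - 1 - x) * (2 * k + 2 + x) * (2 * k + 4 + x))) := by
    have q1 := mul_inv_cancel₀ hk5
    have q2 := mul_inv_cancel₀ hk2
    have q3 := mul_inv_cancel₀ a1
    have q4 := mul_inv_cancel₀ y1
    have q5 := mul_inv_cancel₀ b0
    simp only [div_eq_mul_inv, mul_inv]
    generalize (4 * k + 5)⁻¹ = i1 at *
    generalize (2 * k + 2)⁻¹ = i2 at *
    generalize (2 * k + 2 - x)⁻¹ = i3 at *
    generalize Y⁻¹ = i4 at *
    generalize (2 * k + 1 - x)⁻¹ = i5 at *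
    generalize (4 * k + 1)⁻¹ = j1 at *
    generalize (2 * k + 2 + x)⁻¹ = j2 at *
    generalize (2 * k + 4 + x)⁻¹ = j3 at *
    generalize (2 * k - 1 - x)⁻¹ = j4 at *
    calc _ = (4 * T * (x + 4) * (x + 2) * (2 * k + 1) * (2 * k + 1 + x) * ((2 * k + 1) ^ 2 - y ^ 2) *
            j1 * j2 * j3 * j4) * ((4 * k + 5) * i1) * ((2 * k + 2) * i2) * ((2 * k + 2 - x) * i3) *
            (Y * i4) * ((2 * k + 1 - x) * i5) := by ring
      _ = _ := by rw [q1, q2, q3, q4, q5]; ring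
  rw [r1]
  have r2 : x * ((x + 3) ^ 2 - y ^ 2) *
        (T * ((4 + x) * (2 * k + 1 + x) * (2 * k + 3 + x) * (2 * k - 2 - x) * (2 * k - x) /
            ((2 * k - 3 - x) * (2 * k - 1 - x) * (2 * k + 2 + x) * (2 * k + 4 + x) * x))) =
      T * (((x + 3) ^ 2 - y ^ 2) * ((4 + x) * (2 * k + 1 + x) * (2 * k + 3 + x) *
        (2 * k - 2 - x) * (2 * k - x)) /
            ((2 * k - 3 - x) * (2 * k - 1 - x) * (2 * k + 2 + x) * (2 * k + 4 + x))) := by
    field_simp
  rw [r2]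
  have r3 : T * (2 * k * (2 * k - x) * ((2 * k) ^ 2 - y ^ 2) / (4 * k + 1)) *
    (-4 * (x + 4) * (x + 2) / ((2 * k - 3 - x) * (2 * k - 1 - x) * (2 * k + 2 + x))) =
    T * (-4 * (x + 4) * (x + 2) * 2 * k * (2 * k - x) * ((2 * k) ^ 2 - y ^ 2) / ((4 * k + 1) *
    (2 * k - 3 - x) * (2 * k - 1 - x) * (2 * k + 2 + x))) := by
    field_simp
  rw [r3]
  have r4 : (((x + 3) ^ 2 - y ^ 2) * ((4 + x) * (2 * k + 1 + x) * (2 * k + 3 + x) *
        (2 * k - 2 - x) * (2 * k - x)) /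
            ((2 * k - 3 - x) * (2 * k - 1 - x) * (2 * k + 2 + x) * (2 * k + 4 + x))) -
            (x + 4) * ((x + 1) ^ 2 - y ^ 2) =
      (4 * (x + 4) * (x + 2) * (2 * k + 1) * (2 * k + 1 + x) * ((2 * k + 1) ^ 2 - y ^ 2) /
        ((4 * k + 1) * (2 * k - 1 - x) * (2 * k + 2 + x) * (2 * k + 4 + x))) -
      (-4 * (x + 4) * (x + 2) * 2 * k * (2 * k - x) * ((2 * k) ^ 2 - y ^ 2) / ((4 * k + 1) *
    (2 * k - 3 - x) * (2 * k - 1 - x) * (2 * k + 2 + x))) := by
    rw [div_sub' (by simp [b3, b1, a2, a4]), div_sub_div _ _ (by simp [hk1, b1, a2, a4])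
      (by simp [hk1, b3, b1, a2]), div_eq_div_iff (by simp [b3, b1, a2, a4])
      (by simp [hk1, b3, b1, a2, a4])]
    ring
  linear_combination T * r4

end Closed

end Pool.Agent.KS6_19.SW
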