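import Pool.Agent.KS6_19.SW.A

set_option autoImplicit false

namespace Pool.Agent.KS6_19.SW

open Finset

section Closed2

variable {K : Type*} [Field K] [CharZero K]

omit [CharZero K] in
lemma t_eq_zero (i k : ℕ) (y : K) (hi : i % 2 = 1) (hk : i < 2 * k) : t k (i : K) y = 0 := by
  unfold t
  rw [prod_eq_zero (i := i / 2)]
  · simp
  · rw [mem_range]; omega
  · have h : (2 * ((i / 2 : ℕ) : K) + 1) = (i : K) := by
      have : 2 * (i / 2) + 1 = i := by omega
      conv_rhs => rw [← this]
      push_cast
      ring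
    rw [h]
    simp

lemma NE_odd (i : ℕ) (hi : i % 2 = 1) : NE (i : K) := by
  intro j h
  have h2 : ((2 * j : ℕ) : K) ^ 2 = ((i : ℕ) : K) ^ 2 := by
    push_cast
    linear_combination h
  have h3 : (2 * j) ^ 2 = i ^ 2 := by exact_mod_cast h2
  have h4 : 2 * j = i := by
    exact Nat.pow_left_injective (n := 2) (by norm_num) h3
  omega

omit [CharZero K] in
lemma NE.neg {x : K} (h : NE x) : NE (-x) := by
  intro j
  rw [neg_sq]
  exact h j

lemma S_rec (i N : ℕ) (y : K) (hi : i % 2 = 1) (h5 : 5 ≤ i) (hN : i < 2 * N + 2) (hy : NE y) :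
    (i : K) * (((i : K) - 3) ^ 2 - y ^ 2) * S N ((i : K) - 4) y =
      ((i : K) - 4) * (((i : K) - 1) ^ 2 - y ^ 2) * S N (i : K) y := by
  have hx : NE (-(i : K)) := (NE_odd i hi).neg
  have h1 : ∀ j : ℕ, 2 * (j : K) - 1 - (-(i : K)) ≠ 0 := by
    intro j h
    have h2 : ((2 * j + i : ℕ) : K) = ((1 : ℕ) : K) := by
      push_cast
      linear_combination h
    have h3 : 2 * j + i = 1 := by exact_mod_cast h2
    omega
  have h3 : -3 - (-(i : K)) ≠ 0 := by
    intro h
    have h2 : ((i : ℕ) : K) = ((3 : ℕ) : K) := by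
      push_cast
      linear_combination h
    have h3 : i = 3 := by exact_mod_cast h2
    omega
  have h0 : -(i : K) ≠ 0 := by
    rw [neg_ne_zero, Nat.cast_ne_zero]
    omega
  have hsum : ∑ k ∈ range (N + 1), ((-(i : K)) * (((-(i : K)) + 3) ^ 2 - y ^ 2) *
      t k ((-(i : K)) + 4) y - ((-(i : K)) + 4) * (((-(i : K)) + 1) ^ 2 - y ^ 2) *
      t k (-(i : K)) y) = 0 := by
    rw [sum_congr rfl fun k _ => wz_term (-(i : K)) y hx hy h1 h3 h0 k, sum_range_sub]
    have e1 : G (-(i : K)) y (N + 1) = 0 := by
      unfold G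
      rw [t_neg, t_eq_zero i (N + 1) y hi (by omega)]
      ring
    have e0 : G (-(i : K)) y 0 = 0 := by
      unfold G
      simp
    rw [e1, e0, sub_zero]
  rw [sum_sub_distrib, ← mul_sum, ← mul_sum] at hsum
  have e2 : ∑ k ∈ range (N + 1), t k (-(i : K)) y = S N (i : K) y := by
    rw [← S_neg]
    rfl
  have e3 : ∑ k ∈ range (N + 1), t k (-(i : K) + 4) y = S N ((i : K) - 4) y := by
    rw [← S_neg]
    unfold S
    have : -((i : K) - 4) = -(i : K) + 4 := by ring
    rw [this]
  rw [e2, e3] at hsum
  linear_combination -hsum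

/-- product of `r ^ 2 - y ^ 2` over `0 < r < i` in the class `c` modulo `4`. -/
def A (c i : ℕ) (y : K) : K :=
  ∏ r ∈ (range i).filter (fun r => r % 4 = c ∧ r ≠ 0), ((r : K) ^ 2 - y ^ 2)

omit [CharZero K] in
lemma A_succ_pos {c i : ℕ} (y : K) (h : i % 4 = c ∧ i ≠ 0) :
    A c (i + 1) y = ((i : K) ^ 2 - y ^ 2) * A c i y := by
  unfold A
  rw [range_add_one, filter_insert, if_pos h, prod_insert (by simp)]

omit [CharZero K] in
lemma A_succ_neg {c i : ℕ} (y : K) (h : ¬ (i % 4 = c ∧ i ≠ 0)) :
    A c (i + 1) y = A c i y := by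
  unfold A
  rw [range_add_one, filter_insert, if_neg h]

lemma S_one (N : ℕ) (y : K) : S N (1 : K) y = 1 := by
  unfold S
  rw [sum_range_succ']
  have : ∀ k ∈ range N, t (k + 1) (1 : K) y = 0 := by
    intro k _
    have := t_eq_zero 1 (k + 1) y (by norm_num) (by omega)
    simpa using this
  rw [sum_eq_zero this, t_zero, zero_add]

lemma S_three (N : ℕ) (y : K) (hN : 1 ≤ N) (hy : NE y) :
    S N (3 : K) y * (4 - y ^ 2) = 3 * y ^ 2 := by
  obtain ⟨M, rfl⟩ : ∃ M, N = M + 1 := ⟨N - 1, by omega⟩
  unfold S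
  rw [sum_range_succ', sum_range_succ']
  have : ∀ k ∈ range M, t (k + 1 + 1) (3 : K) y = 0 := by
    intro k _
    have := t_eq_zero 3 (k + 1 + 1) y (by norm_num) (by omega)
    simpa using this
  rw [sum_eq_zero this, t_succ, t_zero]
  have h4 : (4 : K) - y ^ 2 ≠ 0 := by
    have := hy 1
    push_cast at this
    intro h
    apply this
    linear_combination h
  push_cast
  have h5 : ((2 * (0 : K) + 2) ^ 2 - y ^ 2) = 4 - y ^ 2 := by ring
  rw [h5]
  field_simp
  norm_num
  ring

lemma closed (i N : ℕ) (y : K) (hN : i < 2 * N + 2) (hy : NE y) :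
    (i % 4 = 1 → S N (i : K) y * A 0 i y = (i : K) * A 2 i y) ∧
    (i % 4 = 3 → S N (i : K) y * A 2 i y = (i : K) * y ^ 2 * A 0 i y) := by
  induction i using Nat.strong_induction_on with
  | _ i ih =>
    rcases lt_or_ge i 5 with h | h
    · constructor
      · intro h1
        have : i = 1 := by omega
        subst this
        have e1 : A 0 1 y = 1 := by
          unfold A
          rw [show (range 1).filter (fun r => r % 4 = 0 ∧ r ≠ 0) = ∅ by decide, prod_empty]
        have e2 : A 2 1 y = 1 := by
          unfold A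
          rw [show (range 1).filter (fun r => r % 4 = 2 ∧ r ≠ 0) = ∅ by decide, prod_empty]
        rw [e1, e2]
        push_cast
        rw [S_one]
      · intro h1
        have : i = 3 := by omega
        subst this
        have e1 : A 0 3 y = 1 := by
          unfold A
          rw [show (range 3).filter (fun r => r % 4 = 0 ∧ r ≠ 0) = ∅ by decide, prod_empty]
        have e2 : A 2 3 y = 4 - y ^ 2 := by
          unfold A
          rw [show (range 3).filter (fun r => r % 4 = 2 ∧ r ≠ 0) = {2} by decide, prod_singleton]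
          norm_num
        rw [e1, e2]
        push_cast
        rw [S_three N y (by omega) hy]
        ring
    · obtain ⟨m, rfl⟩ : ∃ m, i = m + 4 := ⟨i - 4, by omega⟩
      have hm := ih m (by omega) (by omega)
      have e4 : (((m + 4 : ℕ) : K) - 4) = (m : K) := by push_cast; ring
      have hm0 : (m : K) ≠ 0 := Nat.cast_ne_zero.mpr (by omega)
      constructor
      · intro h1
        have hr := S_rec (m + 4) N y (by omega) h hN hy
        rw [e4] at hr
        have h2 := hm.1 (by omega)
        have a0 : A 0 (m + 4) y = (((m + 3 : ℕ) : K) ^ 2 - y ^ 2) * A 0 m y := by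
          rw [A_succ_pos y (by omega), A_succ_neg y (by omega), A_succ_neg y (by omega),
            A_succ_neg y (by omega)]
        have a2 : A 2 (m + 4) y = (((m + 1 : ℕ) : K) ^ 2 - y ^ 2) * A 2 m y := by
          rw [A_succ_neg y (by omega), A_succ_neg y (by omega), A_succ_pos y (by omega),
            A_succ_neg y (by omega)]
        rw [a0, a2]
        apply mul_left_cancel₀ hm0
        push_cast at hr ⊢
        linear_combination (-A 0 m y) * hr + ((m : K) + 4) * (((m : K) + 1) ^ 2 - y ^ 2) * h2
      · intro h1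
        have hr := S_rec (m + 4) N y (by omega) h hN hy
        rw [e4] at hr
        have h2 := hm.2 (by omega)
        have a0 : A 0 (m + 4) y = (((m + 1 : ℕ) : K) ^ 2 - y ^ 2) * A 0 m y := by
          rw [A_succ_neg y (by omega), A_succ_neg y (by omega), A_succ_pos y (by omega),
            A_succ_neg y (by omega)]
        have a2 : A 2 (m + 4) y = (((m + 3 : ℕ) : K) ^ 2 - y ^ 2) * A 2 m y := by
          rw [A_succ_pos y (by omega), A_succ_neg y (by omega), A_succ_neg y (by omega),
            A_succ_neg y (by omega)]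
        rw [a0, a2]
        apply mul_left_cancel₀ hm0
        push_cast at hr ⊢
        linear_combination (-A 2 m y) * hr + ((m : K) + 4) * (((m : K) + 1) ^ 2 - y ^ 2) * h2

end Closed2

end Pool.Agent.KS6_19.SW
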