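import Mathlib

set_option autoImplicit false

namespace Pool.Agent.KS6_19.SW

open Finset

section Abs

variable {R : Type*} [CommRing R]

/-- the symmetric product -/
def Phi (F : ℤ → R) (Q : ℕ) (a : ℤ) : R :=
  ∏ j ∈ range (Q + 1), (F (4 * (j : ℤ) + 1 + a) * F (4 * (j : ℤ) + 1 - a))

/-- class products -/
def Bc (F : ℤ → R) (c a : ℕ) : R :=
  ∏ r ∈ (range a).filter (fun r => r % 4 = c ∧ r ≠ 0), F (r : ℤ)

lemma Bc_succ_pos (F : ℤ → R) {c i : ℕ} (h : i % 4 = c ∧ i ≠ 0) :
    Bc F c (i + 1) = F (i : ℤ) * Bc F c i := by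
  unfold Bc
  rw [range_add_one, filter_insert, if_pos h, prod_insert (by simp)]

lemma Bc_succ_neg (F : ℤ → R) {c i : ℕ} (h : ¬ (i % 4 = c ∧ i ≠ 0)) :
    Bc F c (i + 1) = Bc F c i := by
  unfold Bc
  rw [range_add_one, filter_insert, if_neg h]

lemma shift_prod (f : ℕ → R) (n : ℕ) :
    (∏ j ∈ range n, f (j + 1)) * f 0 = (∏ j ∈ range n, f j) * f n := by
  rw [← prod_range_succ', prod_range_succ]

lemma Phi_rec (F : ℤ → R) (Q : ℕ) (hper : ∀ t, F (t + (4 * (Q : ℤ) + 1)) = F t)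
    (hsym : ∀ t, F (-t) = F t) (a : ℤ) :
    Phi F Q (a + 4) * (F (a + 1) * F a) = Phi F Q a * (F (a + 4) * F (a + 3)) := by
  unfold Phi
  rw [prod_mul_distrib, prod_mul_distrib]
  have h1 := shift_prod (fun j : ℕ => F (4 * (j : ℤ) + 1 + a)) (Q + 1)
  have h2 := shift_prod (fun j : ℕ => F (4 * (j : ℤ) - 3 - a)) (Q + 1)
  have e1 : F (4 * ((Q + 1 : ℕ) : ℤ) + 1 + a) = F (a + 4) := by
    rw [← hper (a + 4)]
    congr 1
    push_cast
    ring
  have e2 : F (4 * ((Q + 1 : ℕ) : ℤ) - 3 - a) = F a := by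
    rw [← hsym a, ← hper (-a)]
    congr 1
    push_cast
    ring
  have e3 : F (4 * ((0 : ℕ) : ℤ) + 1 + a) = F (a + 1) := by
    congr 1
    push_cast
    ring
  have e4 : F (4 * ((0 : ℕ) : ℤ) - 3 - a) = F (a + 3) := by
    rw [← hsym (a + 3)]
    congr 1
    push_cast
    ring
  simp only [e1, e2, e3, e4] at h1 h2
  have e5 : ∏ j ∈ range (Q + 1), F (4 * (j : ℤ) + 1 + (a + 4)) =
      ∏ j ∈ range (Q + 1), F (4 * ((j + 1 : ℕ) : ℤ) + 1 + a) := by
    refine prod_congr rfl fun j _ => ?_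
    congr 1
    push_cast
    ring
  have e6 : ∏ j ∈ range (Q + 1), F (4 * (j : ℤ) + 1 - (a + 4)) =
      ∏ j ∈ range (Q + 1), F (4 * (j : ℤ) - 3 - a) := by
    refine prod_congr rfl fun j _ => ?_
    congr 1
    ring
  have e7 : ∏ j ∈ range (Q + 1), F (4 * ((j + 1 : ℕ) : ℤ) - 3 - a) =
      ∏ j ∈ range (Q + 1), F (4 * (j : ℤ) + 1 - a) := by
    refine prod_congr rfl fun j _ => ?_
    congr 1
    push_cast
    ring
  rw [e7] at h2
  rw [e5, e6]
  generalize ∏ j ∈ range (Q + 1), F (4 * ((j + 1 : ℕ) : ℤ) + 1 + a) = X1 at *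
  generalize ∏ j ∈ range (Q + 1), F (4 * (j : ℤ) - 3 - a) = X2 at *
  generalize ∏ j ∈ range (Q + 1), F (4 * (j : ℤ) + 1 + a) = X3 at *
  generalize ∏ j ∈ range (Q + 1), F (4 * (j : ℤ) + 1 - a) = X4 at *
  linear_combination (X2 * F a) * h1 - X3 * F (a + 4) * h2

lemma Phi_neg (F : ℤ → R) (Q : ℕ) (a : ℤ) : Phi F Q (-a) = Phi F Q a := by
  unfold Phi
  refine prod_congr rfl fun j _ => ?_
  rw [mul_comm, sub_neg_eq_add, ← sub_eq_add_neg]

lemma Phi_closed (F : ℤ → R) (Q : ℕ) (hper : ∀ t, F (t + (4 * (Q : ℤ) + 1)) = F t)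
    (hsym : ∀ t, F (-t) = F t) (hu : ∀ t, IsUnit (F t)) (D : R) (hD : Phi F Q 1 = D * F 1)
    (a : ℕ) :
    (a % 4 = 1 → Phi F Q a * Bc F 2 a = D * F a * Bc F 0 a) ∧
    (a % 4 = 3 → Phi F Q a * (Bc F 0 a * F 0) = D * F a * Bc F 2 a) := by
  induction a using Nat.strong_induction_on with
  | _ a ih =>
    rcases lt_or_ge a 4 with h | h
    · constructor
      · intro h1
        have : a = 1 := by omega
        subst this
        have e1 : Bc F 0 1 = 1 := by
          unfold Bc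
          rw [show (range 1).filter (fun r => r % 4 = 0 ∧ r ≠ 0) = ∅ by decide, prod_empty]
        have e2 : Bc F 2 1 = 1 := by
          unfold Bc
          rw [show (range 1).filter (fun r => r % 4 = 2 ∧ r ≠ 0) = ∅ by decide, prod_empty]
        rw [e1, e2]
        push_cast
        rw [hD]
      · intro h1
        have : a = 3 := by omega
        subst this
        have e1 : Bc F 0 3 = 1 := by
          unfold Bc
          rw [show (range 3).filter (fun r => r % 4 = 0 ∧ r ≠ 0) = ∅ by decide, prod_empty]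
        have e2 : Bc F 2 3 = F 2 := by
          unfold Bc
          rw [show (range 3).filter (fun r => r % 4 = 2 ∧ r ≠ 0) = {2} by decide, prod_singleton]
          rfl
        rw [e1, e2]
        have hr := Phi_rec F Q hper hsym (-1)
        rw [Phi_neg, hD, show (-1 : ℤ) + 4 = 3 by norm_num, show (-1 : ℤ) + 1 = 0 by norm_num,
          show (-1 : ℤ) + 3 = 2 by norm_num, hsym 1] at hr
        push_cast
        apply (hu 1).mul_left_cancel
        linear_combination hr
    · obtain ⟨m, rfl⟩ : ∃ m, a = m + 4 := ⟨a - 4, by omega⟩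
      have hm := ih m (by omega)
      have hr := Phi_rec F Q hper hsym (m : ℤ)
      constructor
      · intro h1
        have h2 := hm.1 (by omega)
        have a0 : Bc F 0 (m + 4) = F ((m + 3 : ℕ) : ℤ) * Bc F 0 m := by
          rw [Bc_succ_pos F (by omega), Bc_succ_neg F (by omega), Bc_succ_neg F (by omega),
            Bc_succ_neg F (by omega)]
        have a2 : Bc F 2 (m + 4) = F ((m + 1 : ℕ) : ℤ) * Bc F 2 m := by
          rw [Bc_succ_neg F (by omega), Bc_succ_neg F (by omega), Bc_succ_pos F (by omega),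
            Bc_succ_neg F (by omega)]
        rw [a0, a2]
        push_cast
        apply (hu m).mul_left_cancel
        linear_combination (Bc F 2 m) * hr + F (m + 4) * F (m + 3) * h2
      · intro h1
        have h2 := hm.2 (by omega)
        have a0 : Bc F 0 (m + 4) = F ((m + 1 : ℕ) : ℤ) * Bc F 0 m := by
          rw [Bc_succ_neg F (by omega), Bc_succ_neg F (by omega), Bc_succ_pos F (by omega),
            Bc_succ_neg F (by omega)]
        have a2 : Bc F 2 (m + 4) = F ((m + 3 : ℕ) : ℤ) * Bc F 2 m := by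
          rw [Bc_succ_pos F (by omega), Bc_succ_neg F (by omega), Bc_succ_neg F (by omega),
            Bc_succ_neg F (by omega)]
        rw [a0, a2]
        push_cast
        apply (hu m).mul_left_cancel
        linear_combination (Bc F 0 m * F 0) * hr + F (m + 4) * F (m + 3) * h2

/-- The value at `1` is the product over even residues. -/
lemma Phi_one (F : ℤ → R) (Q : ℕ) (hper : ∀ t, F (t + (4 * (Q : ℤ) + 1)) = F t) :
    Phi F Q 1 = (∏ k ∈ range (2 * Q + 1), F (2 * (k : ℤ))) * F 1 := by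
  have h : ∀ n : ℕ, ∏ j ∈ range (n + 1), (F (4 * (j : ℤ) + 1 + 1) * F (4 * (j : ℤ) + 1 - 1)) =
      (∏ k ∈ range (2 * n + 1), F (2 * (k : ℤ))) * F (4 * (n : ℤ) + 2) := by
    intro n
    induction n with
    | zero => simp; ring
    | succ n ih =>
      rw [prod_range_succ, ih, show 2 * (n + 1) + 1 = 2 * n + 1 + 1 + 1 by ring,
        prod_range_succ _ (2 * n + 1 + 1), prod_range_succ _ (2 * n + 1)]
      have e1 : (2 * ((2 * n + 1 : ℕ) : ℤ)) = 4 * (n : ℤ) + 2 := by push_cast; ring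
      have e2 : (2 * ((2 * n + 1 + 1 : ℕ) : ℤ)) = 4 * ((n + 1 : ℕ) : ℤ) + 1 - 1 := by
        push_cast; ring
      have e3 : 4 * ((n + 1 : ℕ) : ℤ) + 1 + 1 = 4 * ((n + 1 : ℕ) : ℤ) + 2 := by ring
      rw [e1, e2, e3]
      ring
  unfold Phi
  rw [h Q]
  congr 1
  rw [← hper 1]
  congr 1
  ring

end Abs

section Wilson

variable {p : ℕ} [hp : Fact p.Prime]

lemma isNilpotent_of_not_isUnit {M : ℕ} (x : ZMod (p ^ M)) (hx : ¬ IsUnit x) : IsNilpotent x := by
  have hP : NeZero (p ^ M) := ⟨pow_ne_zero _ hp.out.ne_zero⟩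
  have h1 : ((x.val : ℕ) : ZMod (p ^ M)) = x := ZMod.natCast_zmod_val x
  rw [← h1, ZMod.isUnit_iff_coprime] at hx
  have h2 : p ∣ x.val := by
    by_contra h
    apply hx
    exact (Nat.Coprime.pow_left M ((Nat.Prime.coprime_iff_not_dvd hp.out).mpr h)).symm
  obtain ⟨c, hc⟩ := h2
  refine ⟨M, ?_⟩
  rw [← h1, hc]
  push_cast
  rw [mul_pow]
  have : ((p : ZMod (p ^ M))) ^ M = 0 := by
    rw [← Nat.cast_pow, ZMod.natCast_self]
  rw [this, zero_mul]

lemma sq_eq_one {M : ℕ} (hp2 : p ≠ 2) (x : ZMod (p ^ M)) (hx : x ^ 2 = 1) : x = 1 ∨ x = -1 := by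
  have h0 : (x - 1) * (x + 1) = 0 := by linear_combination hx
  have h2 : IsUnit (2 : ZMod (p ^ M)) := by
    have : ((2 : ℕ) : ZMod (p ^ M)) = 2 := by norm_cast
    rw [← this, ZMod.isUnit_iff_coprime]
    exact (Nat.Coprime.pow_left M ((Nat.coprime_primes hp.out Nat.prime_two).mpr hp2)).symm
  by_cases h1 : IsUnit (x - 1)
  · right
    have := h1.mul_left_cancel (by rw [h0, mul_zero] : (x - 1) * (x + 1) = (x - 1) * 0)
    linear_combination this
  · left
    have hn := isNilpotent_of_not_isUnit _ h1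
    have hu : IsUnit (x + 1) := by
      have : x + 1 = 2 + (x - 1) := by ring
      rw [this]
      exact hn.isUnit_add_left_of_commute h2 (Commute.all _ _)
    have := hu.mul_right_cancel (by rw [h0, zero_mul] : (x - 1) * (x + 1) = 0 * (x + 1))
    linear_combination this

lemma prod_units {M : ℕ} [NeZero (p ^ M)] (hp2 : p ≠ 2) :
    ∏ u : (ZMod (p ^ M))ˣ, u = -1 := by
  classical
  have h1 : ∏ u ∈ (univ : Finset (ZMod (p ^ M))ˣ).erase (-1), u = 1 := by
    refine prod_involution (fun u _ => u⁻¹) ?_ ?_ ?_ ?_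
    · intro a _; simp
    · intro a ha h1 h2
      have ha' : a ≠ -1 := (mem_erase.mp ha).1
      have h3 : (a : ZMod (p ^ M)) ^ 2 = 1 := by
        rw [← Units.val_pow_eq_pow_val, sq]
        nth_rw 1 [← h2]
        simp
      rcases sq_eq_one hp2 _ h3 with h | h
      · exact h1 (Units.ext (by simpa using h))
      · exact ha' (Units.ext (by simpa using h))
    · intro a ha
      have ha' : a ≠ -1 := (mem_erase.mp ha).1
      rw [mem_erase]
      refine ⟨?_, mem_univ _⟩
      intro h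
      apply ha'
      rw [← inv_inv a, h, inv_neg, inv_one]
    · intro a _; simp
  rw [← mul_prod_erase univ _ (mem_univ (-1)), h1, mul_one]

end Wilson

end Pool.Agent.KS6_19.SW
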