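import Pool.Agent.KS6_19.SW.D

set_option autoImplicit false

namespace Pool.Agent.KS6_19.SW

open Finset

section W2

variable {p : ℕ} [hp : Fact p.Prime]

lemma isUnit_cast_iff {M : ℕ} (hM : M ≠ 0) (r : ℕ) :
    IsUnit ((r : ℕ) : ZMod (p ^ M)) ↔ ¬ p ∣ r := by
  rw [ZMod.isUnit_iff_coprime, Nat.coprime_comm, Nat.coprime_pow_left_iff (Nat.pos_of_ne_zero hM),
    Nat.Prime.coprime_iff_not_dvd hp.out]

lemma range_prod {R : Type*} [CommMonoid R] {M : ℕ} [NeZero (p ^ M)] (hM : M ≠ 0)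
    (f : ZMod (p ^ M) → R) [DecidablePred (fun x : ZMod (p ^ M) => IsUnit x)] :
    ∏ r ∈ range (p ^ M), (if p ∣ r then 1 else f (r : ZMod (p ^ M))) =
      ∏ x : ZMod (p ^ M), (if IsUnit x then f x else 1) := by
  refine prod_nbij' (fun r => (r : ZMod (p ^ M))) (fun x => x.val) ?_ ?_ ?_ ?_ ?_
  · intro r _; exact mem_univ _
  · intro x _; rw [mem_range]; exact ZMod.val_lt x
  · intro r hr; rw [mem_range] at hr; exact ZMod.val_cast_of_lt hr
  · intro x _; exact ZMod.natCast_zmod_val x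
  · intro r _
    by_cases h : p ∣ r
    · rw [if_pos h, if_neg]
      rw [isUnit_cast_iff hM]
      exact fun h2 => h2 h
    · rw [if_neg h, if_pos]
      rw [isUnit_cast_iff hM]
      exact h

lemma prod_isUnit {M : ℕ} [NeZero (p ^ M)] (hp2 : p ≠ 2)
    [DecidablePred (fun x : ZMod (p ^ M) => IsUnit x)] :
    ∏ x : ZMod (p ^ M), (if IsUnit x then x else 1) = -1 := by
  rw [← prod_filter]
  have h := congrArg (fun u : (ZMod (p ^ M))ˣ => (u : ZMod (p ^ M))) (prod_units (p := p) (M := M) hp2)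
  simp only [Units.coe_prod, Units.val_neg, Units.val_one] at h
  rw [← h]
  symm
  refine prod_bij (fun u _ => (u : ZMod (p ^ M))) ?_ ?_ ?_ ?_
  · intro u _; rw [mem_filter]; exact ⟨mem_univ _, u.isUnit⟩
  · intro a _ b _ hab; exact Units.ext hab
  · intro x hx
    obtain ⟨u, hu⟩ := (mem_filter.mp hx).2
    exact ⟨u, mem_univ _, hu⟩
  · intro u _; rfl

omit hp in
lemma isUnit_sub_iff {M : ℕ} (x b : ZMod (p ^ M)) (hb : IsNilpotent b) :
    IsUnit (x - b) ↔ IsUnit x := by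
  constructor
  · intro h
    have : x = (x - b) + b := by ring
    rw [this]
    exact hb.isUnit_add_left_of_commute h (Commute.all _ _)
  · intro h
    rw [sub_eq_add_neg]
    exact hb.neg.isUnit_add_left_of_commute h (Commute.all _ _)

lemma prod_isUnit_sub {M : ℕ} [NeZero (p ^ M)] (hp2 : p ≠ 2) (b : ZMod (p ^ M))
    (hb : IsNilpotent b) [DecidablePred (fun x : ZMod (p ^ M) => IsUnit x)] :
    ∏ x : ZMod (p ^ M), (if IsUnit x then x - b else 1) = -1 := by
  rw [← prod_isUnit hp2]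
  refine Fintype.prod_equiv (Equiv.subRight b) _ _ fun x => ?_
  rw [Equiv.subRight_apply]
  by_cases h : IsUnit x
  · rw [if_pos h, if_pos ((isUnit_sub_iff x b hb).mpr h)]
  · rw [if_neg h, if_neg (fun h2 => h ((isUnit_sub_iff x b hb).mp h2))]

lemma range_wilson {M : ℕ} (hM : M ≠ 0) (hp2 : p ≠ 2) (b : ZMod (p ^ M)) (hb : IsNilpotent b) :
    ∏ r ∈ range (p ^ M), (if p ∣ r then 1 else ((r : ZMod (p ^ M)) - b)) = -1 := by
  classical
  have : NeZero (p ^ M) := ⟨pow_ne_zero _ hp.out.ne_zero⟩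
  rw [range_prod hM (fun x => x - b)]
  exact prod_isUnit_sub hp2 b hb

lemma prod_even_odd {R : Type*} [CommMonoid R] (g : ℕ → R) (n : ℕ) :
    ∏ r ∈ range (2 * n + 1), g r =
      (∏ k ∈ range (n + 1), g (2 * k)) * ∏ k ∈ range n, g (2 * k + 1) := by
  induction n with
  | zero => simp
  | succ n ih =>
    rw [show 2 * (n + 1) + 1 = 2 * n + 1 + 1 + 1 by ring, prod_range_succ, prod_range_succ, ih,
      prod_range_succ (fun k => g (2 * k)) (n + 1), prod_range_succ (fun k => g (2 * k + 1)) n,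
      show 2 * (n + 1) = 2 * n + 1 + 1 by ring]
    generalize (∏ k ∈ range (n + 1), g (2 * k)) = a
    generalize (∏ k ∈ range n, g (2 * k + 1)) = b
    generalize g (2 * n + 1) = c
    generalize g (2 * n + 1 + 1) = d
    rw [mul_assoc (a * b) c d, mul_comm c d, mul_mul_mul_comm]

/-- quotient data: `p ^ M = 4 Q + 1` and `p ^ (M-1) = 4 Q' + 1`. -/
lemma sign_prod {M Q Q' : ℕ} (hp4 : p % 4 = 1) (hM : M ≠ 0) (hQ : p ^ M = 4 * Q + 1)
    (hQ' : p ^ (M - 1) = 4 * Q' + 1) {R : Type*} [CommRing R] :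
    ∏ k ∈ range (2 * Q + 1), (if p ∣ 2 * k then (1 : R) else -1) = 1 := by
  have hpp : p * (4 * Q' + 1) = 4 * Q + 1 := by
    rw [← hQ', ← hQ, ← pow_succ']
    congr 1
    omega
  obtain ⟨w, hw⟩ : ∃ w, p = 4 * w + 1 := ⟨p / 4, by omega⟩
  have h2Q : (2 * Q) / p = 2 * Q' := by
    have h1 : 2 * Q = 2 * Q' * p + 2 * w := by
      have : p * (4 * Q' + 1) = 4 * (Q' * p) + (4 * w + 1) := by
        rw [← hw]; ring
      have h3 : 2 * Q' * p = 2 * (Q' * p) := by ring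
      omega
    rw [h1, Nat.mul_comm, Nat.mul_add_div (by omega)]
    rw [Nat.div_eq_of_lt (by omega)]
    rfl
  have hdv : ∀ k, (p ∣ 2 * k ↔ p ∣ k) := by
    intro k
    constructor
    · intro h
      rcases (Nat.Prime.dvd_mul hp.out).mp h with h | h
      · have := Nat.le_of_dvd (by norm_num) h
        have := hp.out.two_le
        omega
      · exact h
    · intro h; exact Dvd.dvd.mul_left h 2
  rw [prod_range_succ']
  simp only [mul_zero, dvd_zero, if_true, mul_one]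
  have h3 : ∏ k ∈ range (2 * Q), (if p ∣ 2 * (k + 1) then (1 : R) else -1) =
      ∏ k ∈ range (2 * Q), (if p ∣ k + 1 then (1 : R) else -1) := by
    refine prod_congr rfl fun k _ => ?_
    by_cases h : p ∣ k + 1
    · rw [if_pos h, if_pos ((hdv _).mpr h)]
    · rw [if_neg h, if_neg (fun h2 => h ((hdv _).mp h2))]
  rw [h3, prod_ite, prod_const_one, one_mul, prod_const]
  have h4 : #{x ∈ range (2 * Q) | ¬ p ∣ x + 1} = 2 * Q - 2 * Q' := by
    have h5 := card_filter_add_card_filter_not (s := range (2 * Q)) (fun x => p ∣ x + 1)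
    rw [Nat.card_multiples, h2Q, card_range] at h5
    omega
  rw [h4]
  have h6 : Even (2 * Q - 2 * Q') := ⟨Q - Q', by omega⟩
  exact h6.neg_one_pow

/-- The function whose class products appear. -/
def FF (p M : ℕ) (b : ZMod (p ^ M)) (t : ℤ) : ZMod (p ^ M) :=
  if (p : ℤ) ∣ t then 1 else ((t : ZMod (p ^ M)) ^ 2 - b ^ 2)

lemma FF_unit {M : ℕ} (hM : M ≠ 0) (b : ZMod (p ^ M)) (hb : IsNilpotent b) (t : ℤ) :
    IsUnit (FF p M b t) := by
  unfold FF
  split_ifs with h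
  · exact isUnit_one
  · have h1 : IsUnit (t : ZMod (p ^ M)) := by
      have h2 : ¬ p ∣ t.natAbs := fun h2 => h (Int.natCast_dvd.mpr h2)
      have h3 := (isUnit_cast_iff (p := p) hM t.natAbs).mpr h2
      rcases Int.natAbs_eq t with h4 | h4
      · rw [h4]; simpa using h3
      · rw [h4]; simpa using h3.neg
    have : (t : ZMod (p ^ M)) ^ 2 - b ^ 2 = (t - b) * (t - (-b)) := by ring
    rw [this]
    exact ((isUnit_sub_iff _ b hb).mpr h1).mul ((isUnit_sub_iff _ (-b) hb.neg).mpr h1)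

omit hp in
lemma FF_neg {M : ℕ} (b : ZMod (p ^ M)) (t : ℤ) : FF p M b (-t) = FF p M b t := by
  unfold FF
  simp

omit hp in
lemma FF_per {M Q : ℕ} (hM : M ≠ 0) (hQ : p ^ M = 4 * Q + 1) (b : ZMod (p ^ M)) (t : ℤ) :
    FF p M b (t + (4 * (Q : ℤ) + 1)) = FF p M b t := by
  have h1 : (4 * (Q : ℤ) + 1) = ((p ^ M : ℕ) : ℤ) := by rw [hQ]; push_cast; ring
  have h2 : (p : ℤ) ∣ ((p ^ M : ℕ) : ℤ) := by
    push_cast
    exact dvd_pow_self _ hM
  unfold FF
  rw [h1]
  have h3 : ((p : ℤ) ∣ t + ((p ^ M : ℕ) : ℤ)) ↔ (p : ℤ) ∣ t := (Int.dvd_add_left h2)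
  have h4 : ((t + ((p ^ M : ℕ) : ℤ) : ℤ) : ZMod (p ^ M)) = (t : ZMod (p ^ M)) := by
    push_cast
    have : ((p : ZMod (p ^ M))) ^ M = 0 := by
      rw [← Nat.cast_pow, ZMod.natCast_self]
    rw [this, add_zero]
  rw [h4]
  by_cases h : (p : ℤ) ∣ t
  · rw [if_pos h, if_pos (h3.mpr h)]
  · rw [if_neg h, if_neg (fun h5 => h (h3.mp h5))]

lemma FF_const {M Q Q' : ℕ} (hp4 : p % 4 = 1) (hM : M ≠ 0) (hQ : p ^ M = 4 * Q + 1)
    (hQ' : p ^ (M - 1) = 4 * Q' + 1) (b : ZMod (p ^ M)) (hb : IsNilpotent b) :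
    ∏ k ∈ range (2 * Q + 1), FF p M b (2 * (k : ℤ)) = -1 := by
  have hp2 : p ≠ 2 := by omega
  have hw := range_wilson (p := p) hM hp2 b hb
  have hrg : range (p ^ M) = range (2 * (2 * Q) + 1) := by
    rw [hQ]
    congr 1
    ring
  rw [hrg, prod_even_odd] at hw
  have hodd : ∏ k ∈ range (2 * Q), (if p ∣ 2 * k + 1 then (1 : ZMod (p ^ M)) else
      (((2 * k + 1 : ℕ) : ZMod (p ^ M)) - b)) =
      ∏ k ∈ range (2 * Q + 1), (if p ∣ 2 * k then (1 : ZMod (p ^ M)) else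
      (-1) * (((2 * k : ℕ) : ZMod (p ^ M)) + b)) := by
    rw [prod_range_succ']
    simp only [mul_zero, dvd_zero, if_true, mul_one]
    rw [← prod_range_reflect]
    refine prod_congr rfl fun k hk => ?_
    rw [mem_range] at hk
    have hs : 2 * (2 * Q - 1 - k) + 1 + 2 * (k + 1) = p ^ M := by omega
    have hpd : p ∣ p ^ M := dvd_pow_self _ hM
    have h1 : (p ∣ 2 * (2 * Q - 1 - k) + 1) ↔ p ∣ 2 * (k + 1) := by
      constructor
      · intro h
        rw [← hs] at hpd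
        exact (Nat.dvd_add_right h).mp hpd
      · intro h
        rw [← hs] at hpd
        exact (Nat.dvd_add_left h).mp hpd
    have h2 : ((2 * (2 * Q - 1 - k) + 1 : ℕ) : ZMod (p ^ M)) =
        - ((2 * (k + 1) : ℕ) : ZMod (p ^ M)) := by
      rw [eq_neg_iff_add_eq_zero, ← Nat.cast_add, hs, ZMod.natCast_self]
    by_cases h : p ∣ 2 * (k + 1)
    · rw [if_pos h, if_pos (h1.mpr h)]
    · rw [if_neg h, if_neg (fun h3 => h (h1.mp h3)), h2]
      ring
  rw [hodd, ← prod_mul_distrib] at hw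
  have hs := sign_prod (R := ZMod (p ^ M)) hp4 hM hQ hQ'
  have e : ∏ k ∈ range (2 * Q + 1), ((if p ∣ 2 * k then (1 : ZMod (p ^ M)) else
      (((2 * k : ℕ) : ZMod (p ^ M)) - b)) * (if p ∣ 2 * k then (1 : ZMod (p ^ M)) else
      (-1) * (((2 * k : ℕ) : ZMod (p ^ M)) + b))) =
      ∏ k ∈ range (2 * Q + 1), (FF p M b (2 * (k : ℤ)) *
        (if p ∣ 2 * k then (1 : ZMod (p ^ M)) else -1)) := by
    refine prod_congr rfl fun k _ => ?_
    have h3 : ((p : ℤ) ∣ 2 * (k : ℤ)) ↔ p ∣ 2 * k := by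
      rw [show (2 * (k : ℤ)) = ((2 * k : ℕ) : ℤ) by push_cast; ring, Int.natCast_dvd_natCast]
    unfold FF
    by_cases h : p ∣ 2 * k
    · rw [if_pos h, if_pos h, if_pos h, if_pos (h3.mpr h)]
    · rw [if_neg h, if_neg h, if_neg h, if_neg (fun h5 => h (h3.mp h5))]
      push_cast
      ring
  rw [e, prod_mul_distrib, hs, mul_one] at hw
  exact hw

end W2

end Pool.Agent.KS6_19.SW
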