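import Pool.Agent.KS6_19.SW.D2

set_option autoImplicit false

namespace Pool.Agent.KS6_19.SW

open Finset

section W3

variable {p : ℕ} [hp : Fact p.Prime]

lemma node_rel {M Q Q' : ℕ} (hp4 : p % 4 = 1) (hM : M ≠ 0) (hQ : p ^ M = 4 * Q + 1)
    (hQ' : p ^ (M - 1) = 4 * Q' + 1) (b : ZMod (p ^ M)) (hb : IsNilpotent b) (a : ℕ)
    (ha : p ∣ a) :
    (a % 4 = 1 → Phi (FF p M b) Q a * Bc (FF p M b) 2 a = - Bc (FF p M b) 0 a) ∧
    (a % 4 = 3 → Phi (FF p M b) Q a * Bc (FF p M b) 0 a = - Bc (FF p M b) 2 a) := by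
  have hD : Phi (FF p M b) Q 1 = (-1) * FF p M b 1 := by
    rw [Phi_one _ _ (FF_per hM hQ b), FF_const hp4 hM hQ hQ' b hb]
  have h := Phi_closed (FF p M b) Q (FF_per hM hQ b) (FF_neg b) (FF_unit hM b hb) (-1) hD a
  have ha1 : FF p M b a = 1 := by
    unfold FF
    rw [if_pos (by exact_mod_cast ha)]
  have h01 : FF p M b 0 = 1 := by
    unfold FF
    rw [if_pos (by simp)]
  rw [ha1, h01] at h
  constructor
  · intro h1
    rw [h.1 h1]; ring
  · intro h1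
    have := h.2 h1
    rw [mul_one] at this
    rw [this]; ring

omit hp in
lemma Phi_eq {M Q : ℕ} (b : ZMod (p ^ M)) (a : ℤ) (ha : (p : ℤ) ∣ a) :
    Phi (FF p M b) Q a = ∏ j ∈ range (Q + 1), (if p ∣ 4 * j + 1 then (1 : ZMod (p ^ M)) else
      ((((4 * j + 1 : ℕ) : ZMod (p ^ M)) ^ 2 - ((a : ZMod (p ^ M)) + b) ^ 2) *
      (((4 * j + 1 : ℕ) : ZMod (p ^ M)) ^ 2 - ((a : ZMod (p ^ M)) - b) ^ 2))) := by
  unfold Phi
  refine prod_congr rfl fun j _ => ?_
  have h1 : ((p : ℤ) ∣ 4 * (j : ℤ) + 1 + a) ↔ p ∣ 4 * j + 1 := by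
    rw [Int.dvd_add_left ha, show (4 * (j : ℤ) + 1) = ((4 * j + 1 : ℕ) : ℤ) by push_cast; ring,
      Int.natCast_dvd_natCast]
  have h2 : ((p : ℤ) ∣ 4 * (j : ℤ) + 1 - a) ↔ p ∣ 4 * j + 1 := by
    rw [sub_eq_add_neg, Int.dvd_add_left ((dvd_neg).mpr ha),
      show (4 * (j : ℤ) + 1) = ((4 * j + 1 : ℕ) : ℤ) by push_cast; ring,
      Int.natCast_dvd_natCast]
  unfold FF
  by_cases h : p ∣ 4 * j + 1
  · rw [if_pos h, if_pos (h1.mpr h), if_pos (h2.mpr h), one_mul]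
  · rw [if_neg h, if_neg (fun h5 => h (h1.mp h5)), if_neg (fun h5 => h (h2.mp h5))]
    push_cast
    ring

lemma card_cls {M Q Q' : ℕ} (hp4 : p % 4 = 1) (hM : M ≠ 0) (hQ : p ^ M = 4 * Q + 1)
    (hQ' : p ^ (M - 1) = 4 * Q' + 1) :
    #{t ∈ range Q | p ∣ 4 * t + 1} = Q' := by
  have hpp : p * (4 * Q' + 1) = 4 * Q + 1 := by
    rw [← hQ', ← hQ, ← pow_succ']
    congr 1
    omega
  obtain ⟨w, hw⟩ : ∃ w, p = 4 * w + 1 := ⟨p / 4, by omega⟩
  have hp0 : 0 < p := hp.out.pos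
  rw [← card_range Q']
  symm
  refine card_bij (fun s _ => p * s + w) ?_ ?_ ?_
  · intro s hs
    rw [mem_range] at hs
    rw [mem_filter, mem_range]
    constructor
    · have h1 : p * (4 * (s + 1)) ≤ p * (4 * Q' + 1) := Nat.mul_le_mul_left p (by omega)
      have h2 : p * (4 * (s + 1)) = 4 * (p * s) + 4 * p := by ring
      omega
    · refine ⟨4 * s + 1, ?_⟩
      have : p * (4 * s + 1) = 4 * (p * s) + p := by ring
      omega
  · intro a _ b _ hab
    have h1 : p * a = p * b := by omega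
    exact Nat.eq_of_mul_eq_mul_left hp0 h1
  · intro t ht
    rw [mem_filter, mem_range] at ht
    obtain ⟨ht1, c, hc⟩ := ht
    have hc4 : c % 4 = 1 := by
      have h1 : (p * c) % 4 = 1 := by omega
      rw [Nat.mul_mod, hp4, one_mul, Nat.mod_mod] at h1
      exact h1
    obtain ⟨s, hs⟩ : ∃ s, c = 4 * s + 1 := ⟨c / 4, by omega⟩
    refine ⟨s, ?_, ?_⟩
    · rw [mem_range]
      by_contra hlt
      have h2 : p * (4 * Q' + 1) ≤ p * c := Nat.mul_le_mul_left p (by omega)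
      omega
    · have : p * (4 * s + 1) = 4 * (p * s) + p := by ring
      rw [hs] at hc
      omega

lemma gamma_rel {M Q Q' : ℕ} (hp4 : p % 4 = 1) (hM : M ≠ 0) (hQ : p ^ M = 4 * Q + 1)
    (hQ' : p ^ (M - 1) = 4 * Q' + 1) :
    (∏ r ∈ range (3 * Q + 1), (if p ∣ r then (1 : ZMod (p ^ M)) else (r : ZMod (p ^ M)))) ^ 4 *
    (∏ t ∈ range (Q + 1), (if p ∣ 4 * t + 1 then (1 : ZMod (p ^ M)) else
      ((4 * t + 1 : ℕ) : ZMod (p ^ M)))) ^ 4 = 1 := by
  have hp2 : p ≠ 2 := by omega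
  have hpd : p ∣ p ^ M := dvd_pow_self _ hM
  have hw := range_wilson (p := p) hM hp2 0 (IsNilpotent.zero)
  have hrg : range (p ^ M) = range (3 * Q + 1 + Q) := by
    rw [hQ]
    congr 1
    ring
  rw [hrg, prod_range_add] at hw
  simp only [sub_zero] at hw
  have hlast : ∏ t ∈ range (Q + 1), (if p ∣ 4 * t + 1 then (1 : ZMod (p ^ M)) else
      ((4 * t + 1 : ℕ) : ZMod (p ^ M))) = ∏ t ∈ range Q, (if p ∣ 4 * t + 1 then
      (1 : ZMod (p ^ M)) else ((4 * t + 1 : ℕ) : ZMod (p ^ M))) := by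
    rw [prod_range_succ, if_pos (by rw [← hQ]; exact hpd), mul_one]
  have hdiv : ∀ t, (p ∣ 4 * t + 1 ↔ p ∣ 3 * Q + 1 + t) := by
    intro t
    have h1 : 4 * (3 * Q + 1 + t) = 4 * t + 1 + 3 * p ^ M := by rw [hQ]; ring
    have h2 : p ∣ 3 * p ^ M := Dvd.dvd.mul_left hpd 3
    constructor
    · intro h
      have h3 : p ∣ 4 * (3 * Q + 1 + t) := by
        rw [h1]; exact Dvd.dvd.add h h2
      rcases (Nat.Prime.dvd_mul hp.out).mp h3 with h4 | h4
      · exfalso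
        have h5 : p ∣ 2 ^ 2 := by simpa using h4
        have h6 := hp.out.dvd_of_dvd_pow h5
        have h7 := (Nat.prime_dvd_prime_iff_eq hp.out Nat.prime_two).mp h6
        omega
      · exact h4
    · intro h
      have h3 : p ∣ 4 * (3 * Q + 1 + t) := Dvd.dvd.mul_left h 4
      rw [h1] at h3
      exact (Nat.dvd_add_left h2).mp h3
  have hA : ∏ t ∈ range Q, (if p ∣ 4 * t + 1 then (1 : ZMod (p ^ M)) else
      ((4 * t + 1 : ℕ) : ZMod (p ^ M))) = 4 ^ (Q - Q') *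
      ∏ x ∈ range Q, (if p ∣ 3 * Q + 1 + x then (1 : ZMod (p ^ M)) else
        ((3 * Q + 1 + x : ℕ) : ZMod (p ^ M))) := by
    have h4 : (4 : ZMod (p ^ M)) ^ (Q - Q') =
        ∏ t ∈ range Q, (if p ∣ 4 * t + 1 then (1 : ZMod (p ^ M)) else 4) := by
      rw [prod_ite, prod_const_one, one_mul, prod_const]
      congr 1
      have h5 := card_filter_add_card_filter_not (s := range Q) (fun t => p ∣ 4 * t + 1)
      rw [card_cls hp4 hM hQ hQ', card_range] at h5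
      omega
    rw [h4, ← prod_mul_distrib]
    refine prod_congr rfl fun t _ => ?_
    by_cases h : p ∣ 4 * t + 1
    · rw [if_pos h, if_pos h, if_pos ((hdiv t).mp h), one_mul]
    · rw [if_neg h, if_neg h, if_neg (fun h5 => h ((hdiv t).mpr h5))]
      have h6 : ((4 * (3 * Q + 1 + t) : ℕ) : ZMod (p ^ M)) =
          ((4 * t + 1 + 3 * p ^ M : ℕ) : ZMod (p ^ M)) := by
        congr 1
        rw [hQ]
        ring
      have h7 : ((4 * t + 1 + 3 * p ^ M : ℕ) : ZMod (p ^ M)) = ((4 * t + 1 : ℕ) : ZMod (p ^ M)) := by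
        rw [Nat.cast_add (4 * t + 1), Nat.cast_mul 3, ZMod.natCast_self]
        ring
      rw [← h7, ← h6]
      push_cast
      ring
  rw [hlast, hA]
  have hle : Q' ≤ Q := by
    have hpp : p * (4 * Q' + 1) = 4 * Q + 1 := by
      rw [← hQ', ← hQ, ← pow_succ']
      congr 1
      omega
    have : 1 * (4 * Q' + 1) ≤ p * (4 * Q' + 1) := Nat.mul_le_mul_right _ hp.out.pos
    omega
  have h4u : ((4 : ZMod (p ^ M)) ^ (Q - Q')) ^ 4 = 1 := by
    rw [← pow_mul]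
    have h5 : (Q - Q') * 4 = (p ^ M).totient := by
      rw [Nat.totient_prime_pow hp.out (Nat.pos_of_ne_zero hM), hQ', Nat.mul_sub, mul_one]
      have hpp : (4 * Q' + 1) * p = 4 * Q + 1 := by
        rw [← hQ', ← hQ, ← pow_succ]
        congr 1
        omega
      omega
    have h6 : IsUnit (4 : ZMod (p ^ M)) := by
      have h7 : ((4 : ℕ) : ZMod (p ^ M)) = 4 := by norm_cast
      rw [← h7, isUnit_cast_iff hM]
      intro h4
      have h5 : p ∣ 2 ^ 2 := by simpa using h4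
      have h6 := hp.out.dvd_of_dvd_pow h5
      have h7 := (Nat.prime_dvd_prime_iff_eq hp.out Nat.prime_two).mp h6
      omega
    obtain ⟨u, hu⟩ := h6
    rw [← hu, h5, ← Units.val_pow_eq_pow_val, ZMod.pow_totient]
    rfl
  have h8 : (∏ r ∈ range (3 * Q + 1), (if p ∣ r then (1 : ZMod (p ^ M)) else
      (r : ZMod (p ^ M)))) * (∏ x ∈ range Q, (if p ∣ 3 * Q + 1 + x then (1 : ZMod (p ^ M)) else
        ((3 * Q + 1 + x : ℕ) : ZMod (p ^ M)))) = -1 := hw
  generalize (∏ r ∈ range (3 * Q + 1), (if p ∣ r then (1 : ZMod (p ^ M)) else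
      (r : ZMod (p ^ M)))) = X at *
  generalize (∏ x ∈ range Q, (if p ∣ 3 * Q + 1 + x then (1 : ZMod (p ^ M)) else
        ((3 * Q + 1 + x : ℕ) : ZMod (p ^ M)))) = Y at *
  generalize (4 : ZMod (p ^ M)) ^ (Q - Q') = Z at *
  calc X ^ 4 * (Z * Y) ^ 4 = (X * Y) ^ 4 * Z ^ 4 := by ring
    _ = 1 := by rw [h8, h4u]; norm_num

end W3

end Pool.Agent.KS6_19.SW
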