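import Mathlib

set_option autoImplicit false

namespace Pool.Agent.KS6_19.SW

open Finset Polynomial

section Approx

variable {p : ℕ} [hp : Fact p.Prime]

lemma dvd_pow_of_ne_zero (x : ℤ_[p]) (hx : x ≠ 0) : ∃ k : ℕ, x ∣ (p : ℤ_[p]) ^ k := by
  refine ⟨x.valuation, ?_⟩
  have h := PadicInt.unitCoeff_spec hx
  refine ⟨((PadicInt.unitCoeff hx)⁻¹ : ℤ_[p]ˣ), ?_⟩
  nth_rw 2 [h]
  rw [mul_comm ((PadicInt.unitCoeff hx : ℤ_[p]ˣ) : ℤ_[p]), mul_assoc, Units.mul_inv, mul_one]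

lemma dvd_pow_mono {x : ℤ_[p]} {k l : ℕ} (h : x ∣ (p : ℤ_[p]) ^ k) (hkl : k ≤ l) :
    x ∣ (p : ℤ_[p]) ^ l := h.trans (pow_dvd_pow _ hkl)

lemma dvd_pow_finset (s : Finset ℤ_[p]) (hs : ∀ x ∈ s, x ≠ 0) :
    ∃ k : ℕ, ∀ x ∈ s, x ∣ (p : ℤ_[p]) ^ k := by
  classical
  induction s using Finset.induction_on with
  | empty => exact ⟨0, by simp⟩
  | insert a s ha ih =>
    obtain ⟨k, hk⟩ := ih (fun x hx => hs x (mem_insert_of_mem hx))
    obtain ⟨l, hl⟩ := dvd_pow_of_ne_zero a (hs a (mem_insert_self _ _))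
    refine ⟨max k l, fun x hx => ?_⟩
    rcases mem_insert.mp hx with rfl | hx
    · exact dvd_pow_mono hl (le_max_right _ _)
    · exact dvd_pow_mono (hk x hx) (le_max_left _ _)

lemma approx_zero (s : Finset ℤ_[p]) (h0 : (0 : ℤ_[p]) ∉ s) :
    ∃ M0 : ℕ, ∀ M ≥ M0, ∀ P : ℤ_[p][X], (∀ a ∈ s, (p : ℤ_[p]) ^ M ∣ P.eval a) →
      (∏ a ∈ s, a) ∣ P.eval 0 := by
  classical
  induction s using Finset.induction_on with
  | empty => exact ⟨0, fun M _ P _ => by simp⟩
  | insert a s ha ih =>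
    obtain ⟨M0, hM0⟩ := ih (fun h => h0 (mem_insert_of_mem h))
    obtain ⟨C1, hC1⟩ := dvd_pow_finset (s.image (fun b => b - a)) (by
      intro x hx
      rw [mem_image] at hx
      obtain ⟨b, hb, rfl⟩ := hx
      intro h
      apply ha
      rw [sub_eq_zero] at h
      rwa [← h])
    have hne : (∏ b ∈ insert a s, b) ≠ 0 := by
      rw [prod_ne_zero_iff]
      intro b hb h
      rw [h] at hb
      exact h0 hb
    obtain ⟨E1, hE1⟩ := dvd_pow_of_ne_zero _ hne
    refine ⟨max (M0 + C1) E1, fun M hM P hP => ?_⟩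
    have hM1 : M0 + C1 ≤ M := le_trans (le_max_left _ _) hM
    have hM2 : E1 ≤ M := le_trans (le_max_right _ _) hM
    set G := P /ₘ (X - C a) with hG
    have hPG : P = C (P.eval a) + (X - C a) * G := by
      have := modByMonic_add_div P (X - C a)
      rw [modByMonic_X_sub_C_eq_C_eval] at this
      exact this.symm
    have hev : ∀ x, P.eval x = P.eval a + (x - a) * G.eval x := by
      intro x
      conv_lhs => rw [hPG]
      simp
    have hGs : ∀ b ∈ s, (p : ℤ_[p]) ^ (M - C1) ∣ G.eval b := by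
      intro b hb
      have h1 : (p : ℤ_[p]) ^ M ∣ (b - a) * G.eval b := by
        have h2 : (b - a) * G.eval b = P.eval b - P.eval a := by rw [hev b]; ring
        rw [h2]
        exact dvd_sub (hP b (mem_insert_of_mem hb)) (hP a (mem_insert_self _ _))
      obtain ⟨q, hq⟩ := hC1 (b - a) (mem_image_of_mem _ hb)
      obtain ⟨z, hz⟩ := h1
      refine ⟨z * q, ?_⟩
      have hpne : (p : ℤ_[p]) ^ C1 ≠ 0 := pow_ne_zero _ (by exact_mod_cast hp.out.ne_zero)
      apply mul_left_cancel₀ hpne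
      have h3 : (p : ℤ_[p]) ^ M = (p : ℤ_[p]) ^ C1 * (p : ℤ_[p]) ^ (M - C1) := by
        rw [← pow_add]
        congr 1
        omega
      calc (p : ℤ_[p]) ^ C1 * G.eval b = q * ((b - a) * G.eval b) := by rw [hq]; ring
        _ = (p : ℤ_[p]) ^ C1 * ((p : ℤ_[p]) ^ (M - C1) * (z * q)) := by rw [hz, h3]; ring
    have h4 := hM0 (M - C1) (by omega) G hGs
    rw [hev 0]
    refine dvd_add ?_ ?_
    · exact (hE1.trans (pow_dvd_pow _ hM2)).trans (hP a (mem_insert_self _ _))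
    · rw [prod_insert ha]
      exact mul_dvd_mul (by simp) h4

end Approx

end Pool.Agent.KS6_19.SW
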