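import Pool.Agent.KS6_19.SW.B
import Pool.Agent.KS6_19.SW.C

set_option autoImplicit false

namespace Pool.Agent.KS6_19.SW

open Finset

section Defs

variable {R : Type*} [CommRing R] {R' : Type*} [CommRing R']

def Zc (p c a : ℕ) (b : R) : R :=
  ∏ r ∈ (range a).filter (fun r => r % 4 = c ∧ r ≠ 0), (if p ∣ r then 1 else (r : R) ^ 2 - b)

def LL (N : ℕ) (a b u : R) : R :=
  ∏ j ∈ range N, ((2 * (j : R) + 2) * ((2 * (j : R) + 2) ^ 2 * u ^ 2 - a) *
    ((2 * (j : R) + 2) ^ 2 * u ^ 2 - b))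

def Lp (p N : ℕ) (a b : R) : R :=
  ∏ j ∈ range N, (if p ∣ j + 1 then 1 else ((2 * (j : R) + 2) * ((2 * (j : R) + 2) ^ 2 - a) *
    ((2 * (j : R) + 2) ^ 2 - b)))

variable (R) in
def DD (N : ℕ) : R := ∏ m ∈ range (N + 1), (2 * (m : R) + 1)

variable (R) in
def ep (p N : ℕ) : R := ∏ m ∈ range (N + 1), (if p ∣ 2 * m + 1 then 1 else (2 * (m : R) + 1))

def HH (p Q : ℕ) (a b : R) : R :=
  ∏ j ∈ range (Q + 1), (if p ∣ 4 * j + 1 then 1 else
    (((4 * (j : R) + 1) ^ 2 - a - b) ^ 2 - 4 * a * b))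

lemma T_map (φ : R →+* R') (N : ℕ) (a b u : R) : φ (T N a b u) = T N (φ a) (φ b) (φ u) := by
  have h2 : φ 2 = 2 := map_ofNat φ 2
  have h4 : φ 4 = 4 := map_ofNat φ 4
  unfold T
  simp [map_sum, map_prod, h2, h4]

lemma Zc_map (φ : R →+* R') (p c a : ℕ) (b : R) : φ (Zc p c a b) = Zc p c a (φ b) := by
  unfold Zc
  rw [map_prod]
  refine prod_congr rfl fun r _ => ?_
  split_ifs <;> simp

lemma Lp_map (φ : R →+* R') (p N : ℕ) (a b : R) : φ (Lp p N a b) = Lp p N (φ a) (φ b) := by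
  have h2 : φ 2 = 2 := map_ofNat φ 2
  unfold Lp
  rw [map_prod]
  refine prod_congr rfl fun r _ => ?_
  split_ifs <;> simp [h2]

lemma LL_map (φ : R →+* R') (N : ℕ) (a b u : R) : φ (LL N a b u) = LL N (φ a) (φ b) (φ u) := by
  have h2 : φ 2 = 2 := map_ofNat φ 2
  unfold LL
  simp [map_prod, h2]

lemma DD_map (φ : R →+* R') (N : ℕ) : φ (DD R N) = DD R' N := by
  have h2 : φ 2 = 2 := map_ofNat φ 2
  unfold DD
  simp [map_prod, h2]

lemma ep_map (φ : R →+* R') (p N : ℕ) : φ (ep R p N) = ep R' p N := by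
  have h2 : φ 2 = 2 := map_ofNat φ 2
  unfold ep
  rw [map_prod]
  refine prod_congr rfl fun r _ => ?_
  split_ifs <;> simp [h2]

lemma HH_map (φ : R →+* R') (p Q : ℕ) (a b : R) : φ (HH p Q a b) = HH p Q (φ a) (φ b) := by
  have h4 : φ 4 = 4 := map_ofNat φ 4
  unfold HH
  rw [map_prod]
  refine prod_congr rfl fun r _ => ?_
  split_ifs <;> simp [h4]

lemma T_comm (N : ℕ) (a b u : R) : T N a b u = T N b a u := by
  unfold T
  refine sum_congr rfl fun k _ => ?_
  congr 1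
  · congr 1
    exact prod_congr rfl fun j _ => by ring
  · exact prod_congr rfl fun j _ => by ring

lemma Lp_comm (p N : ℕ) (a b : R) : Lp p N a b = Lp p N b a := by
  unfold Lp
  refine prod_congr rfl fun k _ => ?_
  split_ifs
  · rfl
  · ring

lemma HH_comm (p Q : ℕ) (a b : R) : HH p Q a b = HH p Q b a := by
  unfold HH
  refine prod_congr rfl fun k _ => ?_
  split_ifs
  · rfl
  · ring

/-- splitting off the multiples of `p` among `1, …, N'` -/
lemma LL_split {p N N' : ℕ} (hp : p.Prime) (hN : 2 * N' + 1 = p * (2 * N + 1)) (a b : R) :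
    LL N' a b 1 = (p : R) ^ N * LL N a b (p : R) * Lp p N' a b := by
  have hp0 : 0 < p := hp.pos
  have h1 : LL N' a b 1 = (∏ j ∈ range N', (if p ∣ j + 1 then ((2 * (j : R) + 2) *
      ((2 * (j : R) + 2) ^ 2 * 1 ^ 2 - a) * ((2 * (j : R) + 2) ^ 2 * 1 ^ 2 - b)) else 1)) *
      Lp p N' a b := by
    unfold LL Lp
    rw [← prod_mul_distrib]
    refine prod_congr rfl fun j _ => ?_
    split_ifs <;> ring
  rw [h1]
  congr 1
  rw [← prod_filter]
  have h2 : (p : R) ^ N * LL N a b (p : R) = ∏ i ∈ range N, ((2 * ((p * (i + 1) - 1 : ℕ) : R) + 2) *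
      ((2 * ((p * (i + 1) - 1 : ℕ) : R) + 2) ^ 2 * 1 ^ 2 - a) *
      ((2 * ((p * (i + 1) - 1 : ℕ) : R) + 2) ^ 2 * 1 ^ 2 - b)) := by
    unfold LL
    rw [show (p : R) ^ N = ∏ i ∈ range N, (p : R) by simp, ← prod_mul_distrib]
    refine prod_congr rfl fun i _ => ?_
    have h3 : ((p * (i + 1) - 1 : ℕ) : R) = (p : R) * (i + 1) - 1 := by
      rw [Nat.cast_sub (Nat.mul_pos hp0 (by omega))]
      push_cast
      ring
    rw [h3]
    ring
  rw [h2]
  symm
  refine prod_bij (fun i _ => p * (i + 1) - 1) ?_ ?_ ?_ ?_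
  · intro i hi
    rw [mem_range] at hi
    rw [mem_filter, mem_range]
    have h5 : 0 < p * (i + 1) := Nat.mul_pos hp0 (by omega)
    have h4 : p * (2 * (i + 1)) ≤ p * (2 * N) := Nat.mul_le_mul_left p (by omega)
    have h6 : p * (2 * (i + 1)) = 2 * (p * (i + 1)) := by ring
    have h7 : p * (2 * N + 1) = p * (2 * N) + p := by ring
    refine ⟨by omega, ⟨i + 1, by omega⟩⟩
  · intro x _ y _ hxy
    have h5 : 0 < p * (x + 1) := Nat.mul_pos hp0 (by omega)
    have h6 : 0 < p * (y + 1) := Nat.mul_pos hp0 (by omega)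
    have h7 : p * (x + 1) = p * (y + 1) := by
      omega
    have := Nat.eq_of_mul_eq_mul_left hp0 h7
    omega
  · intro j hj
    rw [mem_filter, mem_range] at hj
    obtain ⟨hj1, c, hc⟩ := hj
    have hc0 : c ≠ 0 := by
      rintro rfl
      omega
    refine ⟨c - 1, ?_, ?_⟩
    · rw [mem_range]
      by_contra h
      have h8 : p * (N + 1) ≤ p * c := Nat.mul_le_mul_left p (by omega)
      have h9 : p * (2 * N + 1) + p = 2 * (p * (N + 1)) := by ring
      omega
    · have : c - 1 + 1 = c := by omega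
      simp only [this]
      omega
  · intro i _; rfl

lemma DD_split {p N N' : ℕ} (hp : p.Prime) (hp2 : p % 2 = 1)
    (hN : 2 * N' + 1 = p * (2 * N + 1)) :
    DD R N' = (p : R) ^ (N + 1) * DD R N * ep R p N' := by
  have hp0 : 0 < p := hp.pos
  obtain ⟨v, hv⟩ : ∃ v, p = 2 * v + 1 := ⟨p / 2, by omega⟩
  have h1 : DD R N' = (∏ m ∈ range (N' + 1), (if p ∣ 2 * m + 1 then (2 * (m : R) + 1) else 1)) *
      ep R p N' := by
    unfold DD ep
    rw [← prod_mul_distrib]
    refine prod_congr rfl fun j _ => ?_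
    split_ifs <;> ring
  rw [h1]
  congr 1
  rw [← prod_filter]
  have h2 : (p : R) ^ (N + 1) * DD R N = ∏ i ∈ range (N + 1), (2 * ((p * i + v : ℕ) : R) + 1) := by
    unfold DD
    rw [show (p : R) ^ (N + 1) = ∏ i ∈ range (N + 1), (p : R) by simp, ← prod_mul_distrib]
    refine prod_congr rfl fun i _ => ?_
    have h3 : (p : R) = 2 * v + 1 := by
      conv_lhs => rw [hv]
      push_cast
      ring
    push_cast
    linear_combination h3
  rw [h2]
  symm
  refine prod_bij (fun i _ => p * i + v) ?_ ?_ ?_ ?_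
  · intro i hi
    rw [mem_range] at hi
    rw [mem_filter, mem_range]
    have h4 : p * (2 * i + 1) ≤ p * (2 * N + 1) := Nat.mul_le_mul_left p (by omega)
    have h6 : p * (2 * i + 1) = 2 * (p * i) + p := by ring
    refine ⟨by omega, ⟨2 * i + 1, by omega⟩⟩
  · intro x _ y _ hxy
    have h7 : p * x = p * y := by
      omega
    exact Nat.eq_of_mul_eq_mul_left hp0 h7
  · intro j hj
    rw [mem_filter, mem_range] at hj
    obtain ⟨hj1, c, hc⟩ := hj
    have hc2 : c % 2 = 1 := by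
      have h3 : (p * c) % 2 = 1 := by omega
      rw [Nat.mul_mod, hp2, one_mul, Nat.mod_mod] at h3
      exact h3
    obtain ⟨e, he⟩ : ∃ e, c = 2 * e + 1 := ⟨c / 2, by omega⟩
    refine ⟨e, ?_, ?_⟩
    · rw [mem_range]
      by_contra h
      have h8 : p * (2 * N + 3) ≤ p * c := Nat.mul_le_mul_left p (by omega)
      have h9 : p * (2 * N + 3) = p * (2 * N + 1) + 2 * p := by ring
      omega
    · have : p * (2 * e + 1) = 2 * (p * e) + p := by ring
      rw [he] at hc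
      omega
  · intro i _; rfl

end Defs

section Cnt

def cnt (c i : ℕ) : ℕ := ((range i).filter (fun r => r % 4 = c ∧ r ≠ 0)).card

lemma cnt_succ_pos {c i : ℕ} (h : i % 4 = c ∧ i ≠ 0) : cnt c (i + 1) = cnt c i + 1 := by
  unfold cnt
  rw [range_add_one, filter_insert, if_pos h, card_insert_of_notMem (by simp)]

lemma cnt_succ_neg {c i : ℕ} (h : ¬ (i % 4 = c ∧ i ≠ 0)) : cnt c (i + 1) = cnt c i := by
  unfold cnt
  rw [range_add_one, filter_insert, if_neg h]

lemma cnt_eq (i : ℕ) : (i % 4 = 1 → cnt 0 i = cnt 2 i) ∧ (i % 4 = 3 → cnt 2 i = cnt 0 i + 1) := by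
  induction i using Nat.strong_induction_on with
  | _ i ih =>
    rcases lt_or_ge i 4 with h | h
    · constructor
      · intro h1
        have : i = 1 := by omega
        subst this
        decide
      · intro h1
        have : i = 3 := by omega
        subst this
        decide
    · obtain ⟨m, rfl⟩ : ∃ m, i = m + 4 := ⟨i - 4, by omega⟩
      have hm := ih m (by omega)
      constructor
      · intro h1
        have h2 := hm.1 (by omega)
        rw [cnt_succ_pos (c := 0) (by omega), cnt_succ_neg (c := 0) (by omega),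
          cnt_succ_neg (c := 0) (by omega), cnt_succ_neg (c := 0) (by omega),
          cnt_succ_neg (c := 2) (by omega), cnt_succ_neg (c := 2) (by omega),
          cnt_succ_pos (c := 2) (by omega), cnt_succ_neg (c := 2) (by omega), h2]
      · intro h1
        have h2 := hm.2 (by omega)
        rw [cnt_succ_neg (c := 0) (by omega), cnt_succ_neg (c := 0) (by omega),
          cnt_succ_pos (c := 0) (by omega), cnt_succ_neg (c := 0) (by omega),
          cnt_succ_pos (c := 2) (by omega), cnt_succ_neg (c := 2) (by omega),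
          cnt_succ_neg (c := 2) (by omega), cnt_succ_neg (c := 2) (by omega), h2]

end Cnt

section NodeField

variable {K : Type*} [Field K] [CharZero K]

omit [CharZero K] in
lemma A_split {p : ℕ} (hp : p.Prime) (hp4 : p % 4 = 1) (c i : ℕ) (y : K) :
    A c (p * i) ((p : K) * y) = Zc p c (p * i) (((p : K) * y) ^ 2) * ((p : K) ^ 2) ^ (cnt c i) *
      A c i y := by
  have hp0 : 0 < p := hp.pos
  have h1 : A c (p * i) ((p : K) * y) = Zc p c (p * i) (((p : K) * y) ^ 2) *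
      (∏ r ∈ (range (p * i)).filter (fun r => r % 4 = c ∧ r ≠ 0),
        (if p ∣ r then ((r : K) ^ 2 - ((p : K) * y) ^ 2) else 1)) := by
    unfold A Zc
    rw [← prod_mul_distrib]
    refine prod_congr rfl fun j _ => ?_
    split_ifs <;> ring
  rw [h1, mul_assoc]
  congr 1
  rw [← prod_filter, filter_filter]
  unfold A cnt
  rw [← prod_const, ← prod_mul_distrib]
  symm
  refine prod_bij (fun r _ => p * r) ?_ ?_ ?_ ?_
  · intro r hr
    rw [mem_filter, mem_range] at hr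
    rw [mem_filter, mem_range]
    refine ⟨Nat.mul_lt_mul_of_pos_left hr.1 hp0, ⟨?_, ?_⟩, dvd_mul_right _ _⟩
    · rw [Nat.mul_mod, hp4, one_mul, Nat.mod_mod]
      exact hr.2.1
    · exact Nat.mul_ne_zero (by omega) hr.2.2
  · intro x _ y _ hxy
    exact Nat.eq_of_mul_eq_mul_left hp0 hxy
  · intro j hj
    rw [mem_filter, mem_range] at hj
    obtain ⟨hj1, ⟨hj2, hj3⟩, e, he⟩ := hj
    refine ⟨e, ?_, he.symm⟩
    rw [mem_filter, mem_range]
    subst he
    refine ⟨Nat.lt_of_mul_lt_mul_left hj1, ?_, ?_⟩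
    · rw [Nat.mul_mod, hp4, one_mul, Nat.mod_mod] at hj2
      exact hj2
    · rintro rfl
      simp at hj3
  · intro r _
    push_cast
    ring

omit [CharZero K] in
lemma A_ne_zero (c i : ℕ) (hc : c % 2 = 0) (y : K) (hy : NE y) : A c i y ≠ 0 := by
  unfold A
  rw [prod_ne_zero_iff]
  intro r hr
  rw [mem_filter] at hr
  have h1 : 2 * (r / 2) = r := by omega
  have := hy (r / 2)
  intro h
  apply this
  have h2 : (2 * ((r / 2 : ℕ) : K)) = (r : K) := by
    conv_rhs => rw [← h1]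
    push_cast
    ring
  rw [h2]
  exact h

/-- the sum in terms of the cleared numerators -/
lemma S_T (N : ℕ) (x y u : K) (hx : ∀ j : ℕ, (2 * (j : K) + 2) ^ 2 - x ^ 2 ≠ 0)
    (hy : ∀ j : ℕ, (2 * (j : K) + 2) ^ 2 - y ^ 2 ≠ 0) :
    S N x y * LL N ((u * x) ^ 2) ((u * y) ^ 2) u = T N ((u * x) ^ 2) ((u * y) ^ 2) u := by
  unfold S T LL
  rw [sum_mul]
  refine sum_congr rfl fun k hk => ?_
  rw [mem_range] at hk
  unfold t
  rw [range_eq_Ico, range_eq_Ico, ← prod_Ico_consecutive _ (Nat.zero_le k) (by omega : k ≤ N)]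
  have h1 : (∏ j ∈ Ico 0 k, ((2 * (j : K) + 1) / (2 * (j : K) + 2) *
      (((2 * (j : K) + 1) ^ 2 - x ^ 2) / ((2 * (j : K) + 2) ^ 2 - x ^ 2)) *
      (((2 * (j : K) + 1) ^ 2 - y ^ 2) / ((2 * (j : K) + 2) ^ 2 - y ^ 2)))) *
      (∏ j ∈ Ico 0 k, ((2 * (j : K) + 2) * ((2 * (j : K) + 2) ^ 2 * u ^ 2 - (u * x) ^ 2) *
      ((2 * (j : K) + 2) ^ 2 * u ^ 2 - (u * y) ^ 2))) =
      ∏ j ∈ Ico 0 k, ((2 * (j : K) + 1) * ((2 * (j : K) + 1) ^ 2 * u ^ 2 - (u * x) ^ 2) *
      ((2 * (j : K) + 1) ^ 2 * u ^ 2 - (u * y) ^ 2)) := by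
    rw [← prod_mul_distrib]
    refine prod_congr rfl fun j _ => ?_
    have hj : (2 * (j : K) + 2) ≠ 0 := by
      have : ((2 * j + 2 : ℕ) : K) ≠ 0 := Nat.cast_ne_zero.mpr (by omega)
      push_cast at this
      exact this
    have hx1 : ((2 * (j : K) + 2) ^ 2 - x ^ 2) ≠ 0 := hx j
    have hy1 : ((2 * (j : K) + 2) ^ 2 - y ^ 2) ≠ 0 := hy j
    have e1 : (2 * (j : K) + 2) ^ 2 * u ^ 2 - (u * x) ^ 2 = u ^ 2 * ((2 * (j : K) + 2) ^ 2 - x ^ 2) := by
      ring
    have e2 : (2 * (j : K) + 2) ^ 2 * u ^ 2 - (u * y) ^ 2 = u ^ 2 * ((2 * (j : K) + 2) ^ 2 - y ^ 2) := by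
      ring
    rw [e1, e2]
    have q1 := mul_inv_cancel₀ hj
    have q2 := mul_inv_cancel₀ hx1
    have q3 := mul_inv_cancel₀ hy1
    simp only [div_eq_mul_inv]
    calc _ = (2 * (j : K) + 1) * (u ^ 2 * ((2 * (j : K) + 1) ^ 2 - x ^ 2)) *
        (u ^ 2 * ((2 * (j : K) + 1) ^ 2 - y ^ 2)) * ((2 * (j : K) + 2) * (2 * (j : K) + 2)⁻¹) *
        (((2 * (j : K) + 2) ^ 2 - x ^ 2) * ((2 * (j : K) + 2) ^ 2 - x ^ 2)⁻¹) *
        (((2 * (j : K) + 2) ^ 2 - y ^ 2) * ((2 * (j : K) + 2) ^ 2 - y ^ 2)⁻¹) := by ring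
      _ = _ := by rw [q1, q2, q3]; ring
  rw [← h1]
  ring

omit [CharZero K] in
lemma NE.succ {x : K} (hx : NE x) (j : ℕ) : (2 * (j : K) + 2) ^ 2 - x ^ 2 ≠ 0 := by
  have := hx (j + 1); push_cast at this; intro h; apply this; linear_combination h

lemma node_field {p N N' : ℕ} (hp : p.Prime) (hp4 : p % 4 = 1)
    (hN : 2 * N' + 1 = p * (2 * N + 1)) (i : ℕ) (hi2 : i % 2 = 1) (hi : i ≤ 2 * N + 1) (y : K)
    (hy : NE y) (hpy : NE ((p : K) * y)) (U1 U0 : K)
    (hU1 : T N' (((p : K) * i) ^ 2) (((p : K) * y) ^ 2) 1 = DD K N' * U1)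
    (hU0 : T N (((p : K) * i) ^ 2) (((p : K) * y) ^ 2) (p : K) = DD K N * U0) :
    (i % 4 = 1 → ep K p N' * U1 * Zc p 0 (p * i) (((p : K) * y) ^ 2) =
      Zc p 2 (p * i) (((p : K) * y) ^ 2) * U0 * Lp p N' (((p : K) * i) ^ 2) (((p : K) * y) ^ 2)) ∧
    (i % 4 = 3 → ep K p N' * U1 * Zc p 2 (p * i) (((p : K) * y) ^ 2) =
      Zc p 0 (p * i) (((p : K) * y) ^ 2) * U0 * Lp p N' (((p : K) * i) ^ 2) (((p : K) * y) ^ 2)) := by
  have hpK : (p : K) ≠ 0 := Nat.cast_ne_zero.mpr hp.ne_zero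
  have hNEi : NE (i : K) := NE_odd i hi2
  have hpi2 : (p * i) % 2 = 1 := by
    rw [Nat.mul_mod, show p % 2 = 1 by omega, hi2]
  have hNEpi : NE ((p : K) * i) := by
    have := NE_odd (K := K) (p * i) hpi2
    push_cast at this
    exact this
  have hs1 := S_T N' ((p : K) * i) ((p : K) * y) 1 hNEpi.succ hpy.succ
  rw [one_mul, one_mul] at hs1
  have hs0 := S_T N (i : K) y (p : K) hNEi.succ hy.succ
  rw [hU1] at hs1
  rw [hU0] at hs0
  rw [LL_split hp hN, DD_split hp (by omega) hN] at hs1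
  have hD0 : DD K N ≠ 0 := by
    unfold DD
    rw [prod_ne_zero_iff]
    intro m _
    have : ((2 * m + 1 : ℕ) : K) ≠ 0 := Nat.cast_ne_zero.mpr (by omega)
    push_cast at this
    exact this
  have hle : p * i ≤ p * (2 * N + 1) := Nat.mul_le_mul_left p hi
  have hc1 := closed (K := K) (p * i) N' ((p : K) * y) (by omega) hpy
  have hc0 := closed (K := K) i N y (by omega) hy
  rw [A_split hp hp4, A_split hp hp4] at hc1
  have hA0 := A_ne_zero 0 i (by norm_num) y hy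
  have hA2 := A_ne_zero 2 i (by norm_num) y hy
  have hpi4 : (p * i) % 4 = i % 4 := by
    rw [Nat.mul_mod, hp4, one_mul, Nat.mod_mod]
  rw [hpi4] at hc1
  push_cast at hc1
  generalize S N' ((p : K) * i) ((p : K) * y) = S1 at *
  generalize S N (i : K) y = S0 at *
  generalize Zc p 0 (p * i) (((p : K) * y) ^ 2) = Z0 at *
  generalize Zc p 2 (p * i) (((p : K) * y) ^ 2) = Z2 at *
  generalize LL N (((p : K) * i) ^ 2) (((p : K) * y) ^ 2) (p : K) = L0 at *
  generalize Lp p N' (((p : K) * i) ^ 2) (((p : K) * y) ^ 2) = L1 at *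
  generalize A 0 i y = A0 at *
  generalize A 2 i y = A2 at *
  generalize ep K p N' = e at *
  generalize DD K N = D at *
  have hcn := cnt_eq i
  constructor
  · intro h4
    have e1 := hc1.1 h4
    have e0 := hc0.1 h4
    have hcc := hcn.1 h4
    rw [hcc] at e1
    have e2 : S1 * Z0 = (p : K) * Z2 * S0 := by
      apply mul_right_cancel₀ (mul_ne_zero (pow_ne_zero (cnt 2 i) (pow_ne_zero 2 hpK)) hA0)
      linear_combination e1 - (p : K) * Z2 * ((p : K) ^ 2) ^ (cnt 2 i) * e0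
    apply mul_left_cancel₀ (mul_ne_zero (pow_ne_zero (N + 1) hpK) hD0)
    linear_combination (-Z0) * hs1 + ((p : K) ^ N * L0 * L1) * e2 + (p : K) ^ (N + 1) * Z2 * L1 * hs0
  · intro h4
    have e1 := hc1.2 h4
    have e0 := hc0.2 h4
    have hcc := hcn.2 h4
    rw [hcc] at e1
    have e2 : S1 * Z2 = (p : K) * Z0 * S0 := by
      apply mul_right_cancel₀ (mul_ne_zero (pow_ne_zero (cnt 0 i + 1) (pow_ne_zero 2 hpK)) hA2)
      linear_combination e1 - (p : K) * Z0 * ((p : K) ^ 2) ^ (cnt 0 i + 1) * e0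
    apply mul_left_cancel₀ (mul_ne_zero (pow_ne_zero (N + 1) hpK) hD0)
    linear_combination (-Z2) * hs1 + ((p : K) ^ N * L0 * L1) * e2 + (p : K) ^ (N + 1) * Z0 * L1 * hs0

end NodeField

end Pool.Agent.KS6_19.SW
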