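import Pool.Agent.KS6_19.SW.B

set_option autoImplicit false

namespace Pool.Agent.KS6_19.SW

open Finset

section ClosedR

variable {K : Type*} [Field K] [CharZero K]

/-- The `k`-th term of the companion two-parameter sum. -/
def r (k : ℕ) (x y : K) : K :=
  -((-1) ^ k * (4 * (k : K) - 1) * (x ^ 2 * y ^ 2) * ∏ j ∈ range k,
    ((2 * (j : K) - 1) / (2 * (j : K) + 2) *
      (((2 * (j : K) + 1) ^ 2 - x ^ 2) / ((2 * (j : K)) ^ 2 - x ^ 2)) *
      (((2 * (j : K) + 1) ^ 2 - y ^ 2) / ((2 * (j : K)) ^ 2 - y ^ 2))))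

/-- The truncated companion sum. -/
def RS (N : ℕ) (x y : K) : K := ∑ k ∈ range (N + 1), r k x y

omit [CharZero K] in
lemma r_zero (x y : K) : r 0 x y = x ^ 2 * y ^ 2 := by simp [r]

lemma four_sub_ne (k : ℕ) : (4 * (k : K) - 1) ≠ 0 := by
  intro h
  have h2 : ((4 * k : ℕ) : K) = ((1 : ℕ) : K) := by
    push_cast
    linear_combination h
  have h3 : 4 * k = 1 := by exact_mod_cast h2
  omega

lemma r_succ (k : ℕ) (x y : K) :
    r (k + 1) x y = - ((4 * (k : K) + 3) / (4 * (k : K) - 1)) * r k x y *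
      ((2 * (k : K) - 1) / (2 * (k : K) + 2) *
      (((2 * (k : K) + 1) ^ 2 - x ^ 2) / ((2 * (k : K)) ^ 2 - x ^ 2)) *
      (((2 * (k : K) + 1) ^ 2 - y ^ 2) / ((2 * (k : K)) ^ 2 - y ^ 2))) := by
  have h : (4 * (k : K) - 1) ≠ 0 := four_sub_ne k
  unfold r
  rw [prod_range_succ, pow_succ]
  generalize (∏ j ∈ range k, ((2 * (j : K) - 1) / (2 * (j : K) + 2) *
      (((2 * (j : K) + 1) ^ 2 - x ^ 2) / ((2 * (j : K)) ^ 2 - x ^ 2)) *
      (((2 * (j : K) + 1) ^ 2 - y ^ 2) / ((2 * (j : K)) ^ 2 - y ^ 2)))) = P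
  generalize ((2 * (k : K) - 1) / (2 * (k : K) + 2) *
      (((2 * (k : K) + 1) ^ 2 - x ^ 2) / ((2 * (k : K)) ^ 2 - x ^ 2)) *
      (((2 * (k : K) + 1) ^ 2 - y ^ 2) / ((2 * (k : K)) ^ 2 - y ^ 2))) = Q
  have e : (4 * ((k + 1 : ℕ) : K) - 1) = 4 * (k : K) + 3 := by push_cast; ring
  rw [e]
  have q1 := mul_inv_cancel₀ h
  rw [div_eq_mul_inv]
  generalize (4 * (k : K) - 1)⁻¹ = i at *
  linear_combination (-(4 * (k : K) + 3) * (-1) ^ k * x ^ 2 * y ^ 2 * P * Q) * q1

omit [CharZero K] in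
lemma r_neg (k : ℕ) (x y : K) : r k (-x) y = r k x y := by
  unfold r; simp only [neg_sq]

omit [CharZero K] in
lemma RS_neg (N : ℕ) (x y : K) : RS N (-x) y = RS N x y := by
  unfold RS
  exact sum_congr rfl fun k _ => r_neg k x y

lemma r_shift (x y : K) (hx : NE x) (k : ℕ) :
    r k (x + 4) y * ((2 * (k : K) - 3 - x) * (2 * (k : K) - 1 - x) * (2 * (k : K) + x) *
      (2 * (k : K) + 2 + x) * x) =
    r k x y * ((x + 4) * (2 * (k : K) + 1 + x) * (2 * (k : K) + 3 + x) * (2 * (k : K) - 4 - x) *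
      (2 * (k : K) - 2 - x)) := by
  induction k with
  | zero => rw [r_zero, r_zero]; push_cast; ring
  | succ k ih =>
    rw [r_succ, r_succ]
    have h1 : (2 * (k : K) - x) ≠ 0 := hx.sub k
    have h2 : (2 * (k : K) + x) ≠ 0 := hx.add k
    have h3 : (2 * (k : K) + 4 + x) ≠ 0 := by
      have := hx.add (k + 2); push_cast at this; intro h; apply this; linear_combination h
    have h4 : (2 * (k : K) - 4 - x) ≠ 0 := by
      rcases k with _ | _ | k
      · have := hx.add 2; push_cast at this ⊢; intro h; apply this; linear_combination -h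
      · have := hx.add 1; push_cast at this ⊢; intro h; apply this; linear_combination -h
      · have := hx.sub k; push_cast at this ⊢; intro h; apply this; linear_combination h
    have e1 : (2 * (k : K) + 1) ^ 2 - (x + 4) ^ 2 = (2 * (k : K) - 3 - x) * (2 * (k : K) + 5 + x) := by
      ring
    have e2 : (2 * (k : K)) ^ 2 - (x + 4) ^ 2 = (2 * (k : K) - 4 - x) * (2 * (k : K) + 4 + x) := by
      ring
    have e3 : (2 * (k : K)) ^ 2 - x ^ 2 = (2 * (k : K) - x) * (2 * (k : K) + x) := by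
      ring
    have e4 : (2 * (k : K) + 1) ^ 2 - x ^ 2 = (2 * (k : K) + 1 - x) * (2 * (k : K) + 1 + x) := by
      ring
    rw [e1, e2, e3, e4]
    generalize hQ : (((2 * (k : K) + 1) ^ 2 - y ^ 2) / ((2 * (k : K)) ^ 2 - y ^ 2)) = Q
    generalize hA : (2 * (k : K) - 1) / (2 * (k : K) + 2) = A
    generalize hB : (4 * (k : K) + 3) / (4 * (k : K) - 1) = B
    rw [div_eq_mul_inv, div_eq_mul_inv]
    have hi2 := mul_inv_cancel₀ (mul_ne_zero h4 h3)
    have hi3 := mul_inv_cancel₀ (mul_ne_zero h1 h2)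
    generalize ((2 * (k : K) - 4 - x) * (2 * (k : K) + 4 + x))⁻¹ = i2 at *
    generalize ((2 * (k : K) - x) * (2 * (k : K) + x))⁻¹ = i3 at *
    apply mul_left_cancel₀ (mul_ne_zero h2 h4)
    push_cast
    linear_combination (-B * A * Q * (2 * k + 5 + x) * (2 * k + 1 - x)) * ih +
      (-B * A * Q * (2 * k + 5 + x) * (2 * k + 1 - x) * r k (x + 4) y *
        ((2 * (k : K) - 3 - x) * (2 * (k : K) - 1 - x) * (2 * (k : K) + x) *
      (2 * (k : K) + 2 + x) * x)) * hi2 +
      (B * A * Q * (2 * k + 5 + x) * (2 * k + 1 - x) * r k x y *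
        ((x + 4) * (2 * (k : K) + 1 + x) * (2 * (k : K) + 3 + x) * (2 * (k : K) - 4 - x) *
      (2 * (k : K) - 2 - x))) * hi3

/-- The telescoping certificate of the companion sum. -/
def GR (x y : K) (k : ℕ) : K :=
  r k x y * (2 * (k : K) * (2 * (k : K) - 2 - x) * ((2 * (k : K) - 2) ^ 2 - y ^ 2) /
    (4 * (k : K) - 1)) *
    (4 * (x + 4) * (x + 2) / ((2 * (k : K) - 3 - x) * (2 * (k : K) - 1 - x) *
      (2 * (k : K) + x)))

lemma wz_termR (x y : K) (hx : NE x) (hy : NE y) (h1 : ∀ j : ℕ, 2 * (j : K) - 1 - x ≠ 0)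
    (h3 : -3 - x ≠ 0) (k : ℕ) :
    x * ((x + 1) ^ 2 - y ^ 2) * r k (x + 4) y - (x + 4) * ((x + 3) ^ 2 - y ^ 2) * r k x y =
      GR x y (k + 1) - GR x y k := by
  have hx0 : x ≠ 0 := by
    have := hx 0
    intro h
    apply this
    rw [h]
    simp
  have hk1 : (4 * (k : K) - 1) ≠ 0 := four_sub_ne k
  have hk5 : (4 * (k : K) + 3) ≠ 0 := by
    have : ((4 * k + 3 : ℕ) : K) ≠ 0 := Nat.cast_ne_zero.mpr (by omega)
    push_cast at this
    exact this
  have hk2 : (2 * (k : K) + 2) ≠ 0 := by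
    have : ((2 * k + 2 : ℕ) : K) ≠ 0 := Nat.cast_ne_zero.mpr (by omega)
    push_cast at this
    exact this
  have a1 : (2 * (k : K) - x) ≠ 0 := hx.sub k
  have a2 : (2 * (k : K) + x) ≠ 0 := hx.add k
  have a4 : (2 * (k : K) + 2 + x) ≠ 0 := by
    have := hx.add (k + 1); push_cast at this; intro h; apply this; linear_combination h
  have b1 : (2 * (k : K) - 1 - x) ≠ 0 := h1 k
  have b3 : (2 * (k : K) - 3 - x) ≠ 0 := by
    rcases k with _ | k
    · push_cast; intro h; apply h3; linear_combination h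
    · have := h1 k; push_cast at this ⊢; intro h; apply this; linear_combination h
  have b0 : (2 * (k : K) + 1 - x) ≠ 0 := by
    have := h1 (k + 1); push_cast at this ⊢; intro h; apply this; linear_combination h
  have y1 : ((2 * (k : K)) ^ 2 - y ^ 2) ≠ 0 := hy k
  have hs := r_shift x y hx k
  have hd : ((2 * (k : K) - 3 - x) * (2 * (k : K) - 1 - x) *
      (2 * (k : K) + x) * (2 * (k : K) + 2 + x) * x) ≠ 0 :=
    mul_ne_zero (mul_ne_zero (mul_ne_zero (mul_ne_zero b3 b1) a2) a4) hx0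
  have hT : r k (x + 4) y = r k x y * (((x + 4) * (2 * (k : K) + 1 + x) * (2 * (k : K) + 3 + x) *
      (2 * (k : K) - 4 - x) * (2 * (k : K) - 2 - x)) / ((2 * (k : K) - 3 - x) *
      (2 * (k : K) - 1 - x) * (2 * (k : K) + x) * (2 * (k : K) + 2 + x) * x)) := by
    rw [← mul_div_assoc, eq_div_iff hd, hs]
  unfold GR
  rw [r_succ, hT]
  have e3 : (2 * (k : K)) ^ 2 - x ^ 2 = (2 * (k : K) - x) * (2 * (k : K) + x) := by
    ring
  have e4 : (2 * (k : K) + 1) ^ 2 - x ^ 2 = (2 * (k : K) + 1 - x) * (2 * (k : K) + 1 + x) := by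
    ring
  rw [e3, e4]
  generalize r k x y = T
  have c1 : (2 * ((k + 1 : ℕ) : K) - 2 - x) = (2 * (k : K) - x) := by push_cast; ring
  have c2 : ((2 * ((k + 1 : ℕ) : K) - 2) ^ 2 - y ^ 2) = ((2 * (k : K)) ^ 2 - y ^ 2) := by
    push_cast; ring
  have c3 : 4 * ((k + 1 : ℕ) : K) - 1 = 4 * (k : K) + 3 := by push_cast; ring
  have c4 : 2 * ((k + 1 : ℕ) : K) - 3 - x = 2 * (k : K) - 1 - x := by push_cast; ring
  have c5 : 2 * ((k + 1 : ℕ) : K) - 1 - x = 2 * (k : K) + 1 - x := by push_cast; ring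
  have c6 : 2 * ((k + 1 : ℕ) : K) + x = 2 * (k : K) + 2 + x := by push_cast; ring
  have c7 : 2 * ((k + 1 : ℕ) : K) = 2 * (k : K) + 2 := by push_cast; ring
  rw [c1, c2, c3, c4, c5, c6, c7]
  generalize (k : K) = k at *
  generalize hY : (2 * k) ^ 2 - y ^ 2 = Y at *
  have r1 : -((4 * k + 3) / (4 * k - 1)) * T *
            ((2 * k - 1) / (2 * k + 2) * ((2 * k + 1 - x) * (2 * k + 1 + x) /
              ((2 * k - x) * (2 * k + x))) *
              (((2 * k + 1) ^ 2 - y ^ 2) / Y)) *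
          ((2 * k + 2) * (2 * k - x) * Y / (4 * k + 3)) *
        (4 * (x + 4) * (x + 2) / ((2 * k - 1 - x) * (2 * k + 1 - x) * (2 * k + 2 + x))) =
        T * (-4 * (x + 4) * (x + 2) * (2 * k - 1) * (2 * k + 1 + x) * ((2 * k + 1) ^ 2 - y ^ 2) /
        ((4 * k - 1) * (2 * k - 1 - x) * (2 * k + x) * (2 * k + 2 + x))) := by
    have q1 := mul_inv_cancel₀ hk5
    have q2 := mul_inv_cancel₀ hk2
    have q3 := mul_inv_cancel₀ a1
    have q4 := mul_inv_cancel₀ y1
    have q5 := mul_inv_cancel₀ b0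
    simp only [div_eq_mul_inv, mul_inv]
    generalize (4 * k + 3)⁻¹ = i1 at *
    generalize (2 * k + 2)⁻¹ = i2 at *
    generalize (2 * k - x)⁻¹ = i3 at *
    generalize Y⁻¹ = i4 at *
    generalize (2 * k + 1 - x)⁻¹ = i5 at *
    generalize (4 * k - 1)⁻¹ = j1 at *
    generalize (2 * k + x)⁻¹ = j2 at *
    generalize (2 * k + 2 + x)⁻¹ = j3 at *
    generalize (2 * k - 1 - x)⁻¹ = j4 at *
    calc _ = (-4 * T * (x + 4) * (x + 2) * (2 * k - 1) * (2 * k + 1 + x) *
            ((2 * k + 1) ^ 2 - y ^ 2) *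
            j1 * j2 * j3 * j4) * ((4 * k + 3) * i1) * ((2 * k + 2) * i2) * ((2 * k - x) * i3) *
            (Y * i4) * ((2 * k + 1 - x) * i5) := by ring
      _ = _ := by rw [q1, q2, q3, q4, q5]; ring
  rw [r1]
  have r2 : x * ((x + 1) ^ 2 - y ^ 2) *
        (T * (((x + 4) * (2 * k + 1 + x) * (2 * k + 3 + x) * (2 * k - 4 - x) * (2 * k - 2 - x)) /
            ((2 * k - 3 - x) * (2 * k - 1 - x) * (2 * k + x) * (2 * k + 2 + x) * x))) =
      T * (((x + 1) ^ 2 - y ^ 2) * ((x + 4) * (2 * k + 1 + x) * (2 * k + 3 + x) *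
        (2 * k - 4 - x) * (2 * k - 2 - x)) /
            ((2 * k - 3 - x) * (2 * k - 1 - x) * (2 * k + x) * (2 * k + 2 + x))) := by
    field_simp
  rw [r2]
  have r3 : T * (2 * k * (2 * k - 2 - x) * ((2 * k - 2) ^ 2 - y ^ 2) / (4 * k - 1)) *
    (4 * (x + 4) * (x + 2) / ((2 * k - 3 - x) * (2 * k - 1 - x) * (2 * k + x))) =
    T * (4 * (x + 4) * (x + 2) * 2 * k * (2 * k - 2 - x) * ((2 * k - 2) ^ 2 - y ^ 2) /
    ((4 * k - 1) * (2 * k - 3 - x) * (2 * k - 1 - x) * (2 * k + x))) := by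
    field_simp
  rw [r3]
  have r4 : (((x + 1) ^ 2 - y ^ 2) * ((x + 4) * (2 * k + 1 + x) * (2 * k + 3 + x) *
        (2 * k - 4 - x) * (2 * k - 2 - x)) /
            ((2 * k - 3 - x) * (2 * k - 1 - x) * (2 * k + x) * (2 * k + 2 + x))) -
            (x + 4) * ((x + 3) ^ 2 - y ^ 2) =
      (-4 * (x + 4) * (x + 2) * (2 * k - 1) * (2 * k + 1 + x) * ((2 * k + 1) ^ 2 - y ^ 2) /
        ((4 * k - 1) * (2 * k - 1 - x) * (2 * k + x) * (2 * k + 2 + x))) -
      (4 * (x + 4) * (x + 2) * 2 * k * (2 * k - 2 - x) * ((2 * k - 2) ^ 2 - y ^ 2) /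
    ((4 * k - 1) * (2 * k - 3 - x) * (2 * k - 1 - x) * (2 * k + x))) := by
    rw [div_sub' (by simp [b3, b1, a2, a4]), div_sub_div _ _ (by simp [hk1, b1, a2, a4])
      (by simp [hk1, b3, b1, a2]), div_eq_div_iff (by simp [b3, b1, a2, a4])
      (by simp [hk1, b3, b1, a2, a4])]
    ring
  linear_combination T * r4

omit [CharZero K] in
lemma r_eq_zero (i k : ℕ) (y : K) (hi : i % 2 = 1) (hk : i < 2 * k) : r k (i : K) y = 0 := by
  unfold r
  rw [prod_eq_zero (i := i / 2)]
  · simp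
  · rw [mem_range]; omega
  · have h : (2 * ((i / 2 : ℕ) : K) + 1) = (i : K) := by
      have : 2 * (i / 2) + 1 = i := by omega
      conv_rhs => rw [← this]
      push_cast
      ring
    rw [h]
    simp

lemma RS_rec (i N : ℕ) (y : K) (hi : i % 2 = 1) (h5 : 5 ≤ i) (hN : i < 2 * N + 2) (hy : NE y) :
    (i : K) * (((i : K) - 1) ^ 2 - y ^ 2) * RS N ((i : K) - 4) y =
      ((i : K) - 4) * (((i : K) - 3) ^ 2 - y ^ 2) * RS N (i : K) y := by
  have hx : NE (-(i : K)) := (NE_odd i hi).neg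
  have h1 : ∀ j : ℕ, 2 * (j : K) - 1 - (-(i : K)) ≠ 0 := by
    intro j h
    have h2 : ((2 * j + i : ℕ) : K) = ((1 : ℕ) : K) := by
      push_cast
      linear_combination h
    have h3 : 2 * j + i = 1 := by exact_mod_cast h2
    omega
  have h3 : -3 - (-(i : K)) ≠ 0 := by
    intro h
    have h2 : ((i : ℕ) : K) = ((3 : ℕ) : K) := by
      push_cast
      linear_combination h
    have h3 : i = 3 := by exact_mod_cast h2
    omega
  have hsum : ∑ k ∈ range (N + 1), ((-(i : K)) * (((-(i : K)) + 1) ^ 2 - y ^ 2) *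
      r k ((-(i : K)) + 4) y - ((-(i : K)) + 4) * (((-(i : K)) + 3) ^ 2 - y ^ 2) *
      r k (-(i : K)) y) = 0 := by
    rw [sum_congr rfl fun k _ => wz_termR (-(i : K)) y hx hy h1 h3 k, sum_range_sub]
    have e1 : GR (-(i : K)) y (N + 1) = 0 := by
      unfold GR
      rw [r_neg, r_eq_zero i (N + 1) y hi (by omega)]
      ring
    have e0 : GR (-(i : K)) y 0 = 0 := by
      unfold GR
      simp
    rw [e1, e0, sub_zero]
  rw [sum_sub_distrib, ← mul_sum, ← mul_sum] at hsum
  have e2 : ∑ k ∈ range (N + 1), r k (-(i : K)) y = RS N (i : K) y := by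
    rw [← RS_neg]
    rfl
  have e3 : ∑ k ∈ range (N + 1), r k (-(i : K) + 4) y = RS N ((i : K) - 4) y := by
    rw [← RS_neg]
    unfold RS
    have : -((i : K) - 4) = -(i : K) + 4 := by ring
    rw [this]
  rw [e2, e3] at hsum
  linear_combination -hsum

lemma RS_one (N : ℕ) (y : K) : RS N (1 : K) y = y ^ 2 := by
  unfold RS
  rw [sum_range_succ']
  have : ∀ k ∈ range N, r (k + 1) (1 : K) y = 0 := by
    intro k _
    have := r_eq_zero 1 (k + 1) y (by norm_num) (by omega)
    simpa using this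
  rw [sum_eq_zero this, r_zero, zero_add]
  ring

lemma RS_three (N : ℕ) (y : K) (hN : 1 ≤ N) (hy : NE y) :
    RS N (3 : K) y = 3 * (4 - y ^ 2) := by
  obtain ⟨M, rfl⟩ : ∃ M, N = M + 1 := ⟨N - 1, by omega⟩
  unfold RS
  rw [sum_range_succ', sum_range_succ']
  have : ∀ k ∈ range M, r (k + 1 + 1) (3 : K) y = 0 := by
    intro k _
    have := r_eq_zero 3 (k + 1 + 1) y (by norm_num) (by omega)
    simpa using this
  rw [sum_eq_zero this, r_succ, r_zero]
  have h4 : y ≠ 0 := by
    have := hy 0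
    intro h
    apply this
    rw [h]
    simp
  push_cast
  have h5 : ((2 * (0 : K)) ^ 2 - y ^ 2) = - y ^ 2 := by ring
  rw [h5]
  field_simp
  norm_num
  ring

lemma closedR (i N : ℕ) (y : K) (hN : i < 2 * N + 2) (hy : NE y) :
    (i % 4 = 1 → RS N (i : K) y * A 2 i y = (i : K) * y ^ 2 * A 0 i y) ∧
    (i % 4 = 3 → RS N (i : K) y * A 0 i y = (i : K) * A 2 i y) := by
  induction i using Nat.strong_induction_on with
  | _ i ih =>
    rcases lt_or_ge i 5 with h | h
    · constructor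
      · intro h1
        have : i = 1 := by omega
        subst this
        have e1 : A 0 1 y = 1 := by
          unfold A
          rw [show (range 1).filter (fun r => r % 4 = 0 ∧ r ≠ 0) = ∅ by decide, prod_empty]
        have e2 : A 2 1 y = 1 := by
          unfold A
          rw [show (range 1).filter (fun r => r % 4 = 2 ∧ r ≠ 0) = ∅ by decide, prod_empty]
        rw [e1, e2]
        push_cast
        rw [RS_one]
        ring
      · intro h1
        have : i = 3 := by omega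
        subst this
        have e1 : A 0 3 y = 1 := by
          unfold A
          rw [show (range 3).filter (fun r => r % 4 = 0 ∧ r ≠ 0) = ∅ by decide, prod_empty]
        have e2 : A 2 3 y = 4 - y ^ 2 := by
          unfold A
          rw [show (range 3).filter (fun r => r % 4 = 2 ∧ r ≠ 0) = {2} by decide, prod_singleton]
          norm_num
        rw [e1, e2]
        push_cast
        rw [RS_three N y (by omega) hy]
        ring
    · obtain ⟨m, rfl⟩ : ∃ m, i = m + 4 := ⟨i - 4, by omega⟩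
      have hm := ih m (by omega) (by omega)
      have e4 : (((m + 4 : ℕ) : K) - 4) = (m : K) := by push_cast; ring
      have hm0 : (m : K) ≠ 0 := Nat.cast_ne_zero.mpr (by omega)
      constructor
      · intro h1
        have hr := RS_rec (m + 4) N y (by omega) h hN hy
        rw [e4] at hr
        have h2 := hm.1 (by omega)
        have a0 : A 0 (m + 4) y = (((m + 3 : ℕ) : K) ^ 2 - y ^ 2) * A 0 m y := by
          rw [A_succ_pos y (by omega), A_succ_neg y (by omega), A_succ_neg y (by omega),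
            A_succ_neg y (by omega)]
        have a2 : A 2 (m + 4) y = (((m + 1 : ℕ) : K) ^ 2 - y ^ 2) * A 2 m y := by
          rw [A_succ_neg y (by omega), A_succ_neg y (by omega), A_succ_pos y (by omega),
            A_succ_neg y (by omega)]
        rw [a0, a2]
        apply mul_left_cancel₀ hm0
        push_cast at hr ⊢
        linear_combination (-A 2 m y) * hr + ((m : K) + 4) * (((m : K) + 3) ^ 2 - y ^ 2) * h2
      · intro h1
        have hr := RS_rec (m + 4) N y (by omega) h hN hy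
        rw [e4] at hr
        have h2 := hm.2 (by omega)
        have a0 : A 0 (m + 4) y = (((m + 1 : ℕ) : K) ^ 2 - y ^ 2) * A 0 m y := by
          rw [A_succ_neg y (by omega), A_succ_neg y (by omega), A_succ_pos y (by omega),
            A_succ_neg y (by omega)]
        have a2 : A 2 (m + 4) y = (((m + 3 : ℕ) : K) ^ 2 - y ^ 2) * A 2 m y := by
          rw [A_succ_pos y (by omega), A_succ_neg y (by omega), A_succ_neg y (by omega),
            A_succ_neg y (by omega)]
        rw [a0, a2]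
        apply mul_left_cancel₀ hm0
        push_cast at hr ⊢
        linear_combination (-A 0 m y) * hr + ((m : K) + 4) * (((m : K) + 3) ^ 2 - y ^ 2) * h2

end ClosedR

end Pool.Agent.KS6_19.SW
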