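import Pool.Agent.KS6_19.SW.RA
import Pool.Agent.KS6_19.SW.N

set_option autoImplicit false

namespace Pool.Agent.KS6_19.SW

open Finset Polynomial

section DivR

variable {R : Type*} [CommRing R]

/-- cleared numerator of the truncated companion sum -/
def TQ (N : ℕ) (x y u : R) : R :=
  ∑ k ∈ range (N + 1), (-1) ^ k * (4 * (k : R) - 1) *
    (∏ j ∈ range k, ((2 * (j : R) - 1) * ((2 * (j : R) + 1) ^ 2 * u ^ 2 - x) *
      ((2 * (j : R) + 1) ^ 2 * u ^ 2 - y))) *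
    (∏ j ∈ Ico k N, ((2 * (j : R) + 2) * ((2 * (j : R)) ^ 2 * u ^ 2 - x) *
      ((2 * (j : R)) ^ 2 * u ^ 2 - y)))

lemma TE_two (N : ℕ) (x y u : R) : TE N x y u (2 * u) = u ^ (N + 1) * TQ N x y u := by
  unfold TE TQ
  rw [mul_sum]
  refine sum_congr rfl fun k hk => ?_
  have hk' : k ≤ N := by rw [mem_range] at hk; omega
  have h1 : ∏ j ∈ range k, (((2 * (j : R) + 1) * u - 2 * u) * ((2 * (j : R) + 1) ^ 2 * u ^ 2 - x) *
      ((2 * (j : R) + 1) ^ 2 * u ^ 2 - y)) = u ^ k *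
      ∏ j ∈ range k, ((2 * (j : R) - 1) * ((2 * (j : R) + 1) ^ 2 * u ^ 2 - x) *
      ((2 * (j : R) + 1) ^ 2 * u ^ 2 - y)) := by
    rw [show u ^ k = ∏ j ∈ range k, u by simp, ← prod_mul_distrib]
    refine prod_congr rfl fun j _ => ?_
    ring
  have h2 : ∏ j ∈ Ico k N, ((2 * (j : R) + 2) * u * (((2 * (j : R) + 2) * u - 2 * u) ^ 2 - x) *
      (((2 * (j : R) + 2) * u - 2 * u) ^ 2 - y)) = u ^ (N - k) *
      ∏ j ∈ Ico k N, ((2 * (j : R) + 2) * ((2 * (j : R)) ^ 2 * u ^ 2 - x) *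
      ((2 * (j : R)) ^ 2 * u ^ 2 - y)) := by
    rw [show u ^ (N - k) = ∏ j ∈ Ico k N, u by simp, ← prod_mul_distrib]
    refine prod_congr rfl fun j _ => ?_
    ring
  rw [h1, h2]
  have h3 : u ^ (N + 1) = u * u ^ k * u ^ (N - k) := by
    rw [mul_assoc, ← pow_add, ← pow_succ']
    congr 1
    omega
  rw [h3]
  ring

lemma TP_dvd [IsDomain R] [CharZero R] (N : ℕ) (x y u : R) (hu : u ≠ 0) :
    (∏ m ∈ range (N + 1), (X - C ((2 * (m : R) + 1) * u))) ∣ TP N x y u := by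
  have hinj : Set.InjOn (fun m : ℕ => (2 * (m : R) + 1) * u) (range (N + 1)) := by
    intro a _ b _ hab
    have h1 := mul_right_cancel₀ hu hab
    have h2 : ((2 * a + 1 : ℕ) : R) = ((2 * b + 1 : ℕ) : R) := by
      push_cast
      exact h1
    have h3 : 2 * a + 1 = 2 * b + 1 := by exact_mod_cast h2
    omega
  by_cases h0 : TP N x y u = 0
  · rw [h0]; exact dvd_zero _
  have hs := (Multiset.prod_X_sub_C_dvd_iff_le_roots h0
    ((range (N + 1)).val.map (fun m : ℕ => (2 * (m : R) + 1) * u))).mpr (by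
      rw [Multiset.le_iff_subset]
      · intro a ha
        rw [Multiset.mem_map] at ha
        obtain ⟨m, hm, rfl⟩ := ha
        rw [mem_roots h0, IsRoot.def, TP_eval]
        apply TE_root
        have : m ∈ range (N + 1) := hm
        rw [mem_range] at this
        omega
      · exact Multiset.Nodup.map_on (fun a ha b hb hab => hinj (Finset.mem_coe.mpr ha)
          (Finset.mem_coe.mpr hb) hab) (range (N + 1)).nodup)
  rw [Multiset.map_map] at hs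
  exact hs

lemma DD_shift (N : ℕ) : ∏ m ∈ range (N + 1 + 1), (1 - 2 * (m : R)) = (-1) ^ (N + 1) * DD R N := by
  unfold DD
  rw [prod_range_succ', show (-1 : R) ^ (N + 1) = ∏ j ∈ range (N + 1), (-1 : R) by simp,
    ← prod_mul_distrib]
  push_cast
  rw [mul_zero, sub_zero, mul_one]
  refine prod_congr rfl fun j _ => ?_
  ring

lemma TQ_dvd [IsDomain R] [CharZero R] (N : ℕ) (x y u : R) (hu : u ≠ 0) :
    ∃ V : R, TQ (N + 1) x y u = DD R N * V := by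
  obtain ⟨Q, hQ⟩ := TP_dvd (N + 1) x y u hu
  have h1 := congrArg (eval (2 * u)) hQ
  rw [TP_eval, TE_two, eval_mul, eval_prod] at h1
  have h2 : ∏ j ∈ range (N + 1 + 1), eval (2 * u) (X - C ((2 * (j : R) + 1) * u)) =
      u ^ (N + 1 + 1) * ∏ j ∈ range (N + 1 + 1), (1 - 2 * (j : R)) := by
    rw [show u ^ (N + 1 + 1) = ∏ j ∈ range (N + 1 + 1), u by simp, ← prod_mul_distrib]
    refine prod_congr rfl fun j _ => ?_
    simp
    ring
  rw [h2, DD_shift] at h1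
  refine ⟨(-1) ^ (N + 1) * eval (2 * u) Q, ?_⟩
  apply mul_left_cancel₀ (pow_ne_zero (N + 1 + 1) hu)
  rw [h1]
  ring

lemma TQ_map {R' : Type*} [CommRing R'] (φ : R →+* R') (N : ℕ) (a b u : R) :
    φ (TQ N a b u) = TQ N (φ a) (φ b) (φ u) := by
  have h2 : φ 2 = 2 := map_ofNat φ 2
  have h4 : φ 4 = 4 := map_ofNat φ 4
  unfold TQ
  simp [map_sum, map_prod, h2, h4]

lemma TQ_comm (N : ℕ) (a b u : R) : TQ N a b u = TQ N b a u := by
  unfold TQ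
  refine sum_congr rfl fun k _ => ?_
  congr 1
  · congr 1
    exact prod_congr rfl fun j _ => by ring
  · exact prod_congr rfl fun j _ => by ring

/-- homogeneity at the origin -/
lemma TQ_hom (N : ℕ) (u : R) : TQ N 0 0 u = u ^ (4 * N) * TQ N 0 0 1 := by
  unfold TQ
  rw [mul_sum]
  refine sum_congr rfl fun k hk => ?_
  have hk' : k ≤ N := by rw [mem_range] at hk; omega
  have h1 : ∏ j ∈ range k, ((2 * (j : R) - 1) * ((2 * (j : R) + 1) ^ 2 * u ^ 2 - 0) *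
      ((2 * (j : R) + 1) ^ 2 * u ^ 2 - 0)) = (u ^ 4) ^ k *
      ∏ j ∈ range k, ((2 * (j : R) - 1) * ((2 * (j : R) + 1) ^ 2 * 1 ^ 2 - 0) *
      ((2 * (j : R) + 1) ^ 2 * 1 ^ 2 - 0)) := by
    rw [show (u ^ 4) ^ k = ∏ j ∈ range k, u ^ 4 by simp, ← prod_mul_distrib]
    refine prod_congr rfl fun j _ => ?_
    ring
  have h2 : ∏ j ∈ Ico k N, ((2 * (j : R) + 2) * ((2 * (j : R)) ^ 2 * u ^ 2 - 0) *
      ((2 * (j : R)) ^ 2 * u ^ 2 - 0)) = (u ^ 4) ^ (N - k) *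
      ∏ j ∈ Ico k N, ((2 * (j : R) + 2) * ((2 * (j : R)) ^ 2 * 1 ^ 2 - 0) *
      ((2 * (j : R)) ^ 2 * 1 ^ 2 - 0)) := by
    rw [show (u ^ 4) ^ (N - k) = ∏ j ∈ Ico k N, u ^ 4 by simp, ← prod_mul_distrib]
    refine prod_congr rfl fun j _ => ?_
    ring
  rw [h1, h2]
  have h3 : u ^ (4 * N) = (u ^ 4) ^ k * (u ^ 4) ^ (N - k) := by
    rw [← pow_add, ← pow_mul]
    congr 2
    omega
  rw [h3]
  ring

end DivR

section FieldR

variable {K : Type*} [Field K] [CharZero K]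

lemma LL_shift (N : ℕ) (x y u : K) :
    ∏ j ∈ range (N + 1), ((2 * (j : K) + 2) * ((2 * (j : K)) ^ 2 * u ^ 2 - (u * x) ^ 2) *
      ((2 * (j : K)) ^ 2 * u ^ 2 - (u * y) ^ 2)) =
    (2 * (N : K) + 2) * u ^ 4 * (x ^ 2 * y ^ 2) * LL N ((u * x) ^ 2) ((u * y) ^ 2) u := by
  unfold LL
  have h1 : ∏ j ∈ range (N + 1), ((2 * (j : K) + 2) * ((2 * (j : K)) ^ 2 * u ^ 2 - (u * x) ^ 2) *
      ((2 * (j : K)) ^ 2 * u ^ 2 - (u * y) ^ 2)) =
      (∏ j ∈ range (N + 1), (2 * (j : K) + 2)) *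
      ∏ j ∈ range (N + 1), (((2 * (j : K)) ^ 2 * u ^ 2 - (u * x) ^ 2) *
      ((2 * (j : K)) ^ 2 * u ^ 2 - (u * y) ^ 2)) := by
    rw [← prod_mul_distrib]
    refine prod_congr rfl fun j _ => ?_
    ring
  rw [h1, prod_range_succ, prod_range_succ' (fun j : ℕ => (((2 * (j : K)) ^ 2 * u ^ 2 - (u * x) ^ 2) *
      ((2 * (j : K)) ^ 2 * u ^ 2 - (u * y) ^ 2)))]
  have h2 : ∏ j ∈ range N, ((2 * (j : K) + 2) * ((2 * (j : K) + 2) ^ 2 * u ^ 2 - (u * x) ^ 2) *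
      ((2 * (j : K) + 2) ^ 2 * u ^ 2 - (u * y) ^ 2)) =
      (∏ j ∈ range N, (2 * (j : K) + 2)) *
      ∏ j ∈ range N, (((2 * ((j + 1 : ℕ) : K)) ^ 2 * u ^ 2 - (u * x) ^ 2) *
      ((2 * ((j + 1 : ℕ) : K)) ^ 2 * u ^ 2 - (u * y) ^ 2)) := by
    rw [← prod_mul_distrib]
    refine prod_congr rfl fun j _ => ?_
    push_cast
    ring
  rw [h2]
  push_cast
  ring

/-- the companion sum in terms of the cleared numerators -/
lemma RS_T (N : ℕ) (x y u : K) (hx : NE x) (hy : NE y) :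
    RS (N + 1) x y * ((2 * (N : K) + 2) * u ^ 4 * LL N ((u * x) ^ 2) ((u * y) ^ 2) u) =
      - TQ (N + 1) ((u * x) ^ 2) ((u * y) ^ 2) u := by
  have hx0 : x ^ 2 * y ^ 2 ≠ 0 := by
    have h1 := hx 0
    have h2 := hy 0
    push_cast at h1 h2
    intro h
    rcases mul_eq_zero.mp h with h3 | h3
    · apply h1; rw [h3]; ring
    · apply h2; rw [h3]; ring
  apply mul_left_cancel₀ hx0
  have hL := LL_shift N x y u
  have key : RS (N + 1) x y * ∏ j ∈ range (N + 1), ((2 * (j : K) + 2) *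
      ((2 * (j : K)) ^ 2 * u ^ 2 - (u * x) ^ 2) * ((2 * (j : K)) ^ 2 * u ^ 2 - (u * y) ^ 2)) =
      - (x ^ 2 * y ^ 2) * TQ (N + 1) ((u * x) ^ 2) ((u * y) ^ 2) u := by
    unfold RS TQ
    rw [sum_mul, mul_sum]
    refine sum_congr rfl fun k hk => ?_
    rw [mem_range] at hk
    unfold r
    rw [range_eq_Ico, range_eq_Ico, ← prod_Ico_consecutive _ (Nat.zero_le k) (by omega : k ≤ N + 1)]
    have h1 : (∏ j ∈ Ico 0 k, ((2 * (j : K) - 1) / (2 * (j : K) + 2) *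
        (((2 * (j : K) + 1) ^ 2 - x ^ 2) / ((2 * (j : K)) ^ 2 - x ^ 2)) *
        (((2 * (j : K) + 1) ^ 2 - y ^ 2) / ((2 * (j : K)) ^ 2 - y ^ 2)))) *
        (∏ j ∈ Ico 0 k, ((2 * (j : K) + 2) * ((2 * (j : K)) ^ 2 * u ^ 2 - (u * x) ^ 2) *
        ((2 * (j : K)) ^ 2 * u ^ 2 - (u * y) ^ 2))) =
        ∏ j ∈ Ico 0 k, ((2 * (j : K) - 1) * ((2 * (j : K) + 1) ^ 2 * u ^ 2 - (u * x) ^ 2) *
        ((2 * (j : K) + 1) ^ 2 * u ^ 2 - (u * y) ^ 2)) := by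
      rw [← prod_mul_distrib]
      refine prod_congr rfl fun j _ => ?_
      have hj : (2 * (j : K) + 2) ≠ 0 := by
        have : ((2 * j + 2 : ℕ) : K) ≠ 0 := Nat.cast_ne_zero.mpr (by omega)
        push_cast at this
        exact this
      have hx1 : ((2 * (j : K)) ^ 2 - x ^ 2) ≠ 0 := hx j
      have hy1 : ((2 * (j : K)) ^ 2 - y ^ 2) ≠ 0 := hy j
      have e1 : (2 * (j : K)) ^ 2 * u ^ 2 - (u * x) ^ 2 = u ^ 2 * ((2 * (j : K)) ^ 2 - x ^ 2) := by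
        ring
      have e2 : (2 * (j : K)) ^ 2 * u ^ 2 - (u * y) ^ 2 = u ^ 2 * ((2 * (j : K)) ^ 2 - y ^ 2) := by
        ring
      rw [e1, e2]
      have q1 := mul_inv_cancel₀ hj
      have q2 := mul_inv_cancel₀ hx1
      have q3 := mul_inv_cancel₀ hy1
      simp only [div_eq_mul_inv]
      calc _ = (2 * (j : K) - 1) * (u ^ 2 * ((2 * (j : K) + 1) ^ 2 - x ^ 2)) *
          (u ^ 2 * ((2 * (j : K) + 1) ^ 2 - y ^ 2)) * ((2 * (j : K) + 2) * (2 * (j : K) + 2)⁻¹) *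
          (((2 * (j : K)) ^ 2 - x ^ 2) * ((2 * (j : K)) ^ 2 - x ^ 2)⁻¹) *
          (((2 * (j : K)) ^ 2 - y ^ 2) * ((2 * (j : K)) ^ 2 - y ^ 2)⁻¹) := by ring
        _ = _ := by rw [q1, q2, q3]; ring
    rw [← h1]
    ring
  rw [hL] at key
  linear_combination key

end FieldR

end Pool.Agent.KS6_19.SW
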