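import Pool.Agent.KS6_19.SW.RN
import Pool.Agent.KS6_19.SW.Nd

set_option autoImplicit false

namespace Pool.Agent.KS6_19.SW

open Finset

section W3R

variable {p : ℕ} [hp : Fact p.Prime]

lemma sign_prod3 {M Q : ℕ} (hp4 : p % 4 = 3) (hM : M ≠ 0) (hQ : p ^ M = 4 * Q + 1)
    {R : Type*} [CommRing R] :
    ∏ k ∈ range (2 * Q + 1), (if p ∣ 2 * k then (1 : R) else -1) = -1 := by
  obtain ⟨w, hw⟩ : ∃ w, w = p ^ (M - 1) := ⟨_, rfl⟩
  have hpw : p * w = 4 * Q + 1 := by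
    rw [hw, ← pow_succ', ← hQ]
    congr 1
    omega
  have hw4 : w % 4 = 3 := by
    have h1 : (p * w) % 4 = (3 * (w % 4)) % 4 := by rw [Nat.mul_mod, hp4]
    omega
  obtain ⟨a, ha⟩ : ∃ a, p = 4 * a + 3 := ⟨p / 4, by omega⟩
  obtain ⟨b, hb⟩ : ∃ b, w = 4 * b + 3 := ⟨w / 4, by omega⟩
  have hprod : p * w = 4 * (4 * (a * b) + 3 * a + 3 * b + 2) + 1 := by
    rw [ha, hb]; ring
  have hQ' : Q = 4 * (a * b) + 3 * a + 3 * b + 2 := by omega
  have h2Q : (2 * Q) / p = 2 * b + 1 := by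
    have h1 : 2 * Q = p * (2 * b + 1) + (2 * a + 1) := by
      rw [hQ', ha]; ring
    rw [h1, Nat.mul_add_div (by omega), Nat.div_eq_of_lt (by omega)]
  have hdv : ∀ k, (p ∣ 2 * k ↔ p ∣ k) := by
    intro k
    constructor
    · intro h
      rcases (Nat.Prime.dvd_mul hp.out).mp h with h | h
      · have := Nat.le_of_dvd (by norm_num) h
        have := hp.out.two_le
        omega
      · exact h
    · intro h; exact Dvd.dvd.mul_left h 2
  rw [prod_range_succ']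
  simp only [mul_zero, dvd_zero, if_true, mul_one]
  have h3 : ∏ k ∈ range (2 * Q), (if p ∣ 2 * (k + 1) then (1 : R) else -1) =
      ∏ k ∈ range (2 * Q), (if p ∣ k + 1 then (1 : R) else -1) := by
    refine prod_congr rfl fun k _ => ?_
    by_cases h : p ∣ k + 1
    · rw [if_pos h, if_pos ((hdv _).mpr h)]
    · rw [if_neg h, if_neg (fun h2 => h ((hdv _).mp h2))]
  rw [h3, prod_ite, prod_const_one, one_mul, prod_const]
  have h4 : #{x ∈ range (2 * Q) | ¬ p ∣ x + 1} = 2 * Q - (2 * b + 1) := by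
    have h5 := card_filter_add_card_filter_not (s := range (2 * Q)) (fun x => p ∣ x + 1)
    rw [Nat.card_multiples, h2Q, card_range] at h5
    omega
  rw [h4]
  have h6 : Odd (2 * Q - (2 * b + 1)) := ⟨Q - b - 1, by omega⟩
  exact h6.neg_one_pow

lemma FF_const3 {M Q : ℕ} (hp4 : p % 4 = 3) (hM : M ≠ 0) (hQ : p ^ M = 4 * Q + 1)
    (b : ZMod (p ^ M)) (hb : IsNilpotent b) :
    ∏ k ∈ range (2 * Q + 1), FF p M b (2 * (k : ℤ)) = 1 := by
  have hp2 : p ≠ 2 := by omega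
  have hw := range_wilson (p := p) hM hp2 b hb
  have hrg : range (p ^ M) = range (2 * (2 * Q) + 1) := by
    rw [hQ]
    congr 1
    ring
  rw [hrg, prod_even_odd] at hw
  have hodd : ∏ k ∈ range (2 * Q), (if p ∣ 2 * k + 1 then (1 : ZMod (p ^ M)) else
      (((2 * k + 1 : ℕ) : ZMod (p ^ M)) - b)) =
      ∏ k ∈ range (2 * Q + 1), (if p ∣ 2 * k then (1 : ZMod (p ^ M)) else
      (-1) * (((2 * k : ℕ) : ZMod (p ^ M)) + b)) := by
    rw [prod_range_succ']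
    simp only [mul_zero, dvd_zero, if_true, mul_one]
    rw [← prod_range_reflect]
    refine prod_congr rfl fun k hk => ?_
    rw [mem_range] at hk
    have hs : 2 * (2 * Q - 1 - k) + 1 + 2 * (k + 1) = p ^ M := by omega
    have hpd : p ∣ p ^ M := dvd_pow_self _ hM
    have h1 : (p ∣ 2 * (2 * Q - 1 - k) + 1) ↔ p ∣ 2 * (k + 1) := by
      constructor
      · intro h
        rw [← hs] at hpd
        exact (Nat.dvd_add_right h).mp hpd
      · intro h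
        rw [← hs] at hpd
        exact (Nat.dvd_add_left h).mp hpd
    have h2 : ((2 * (2 * Q - 1 - k) + 1 : ℕ) : ZMod (p ^ M)) =
        - ((2 * (k + 1) : ℕ) : ZMod (p ^ M)) := by
      rw [eq_neg_iff_add_eq_zero, ← Nat.cast_add, hs, ZMod.natCast_self]
    by_cases h : p ∣ 2 * (k + 1)
    · rw [if_pos h, if_pos (h1.mpr h)]
    · rw [if_neg h, if_neg (fun h3 => h (h1.mp h3)), h2]
      ring
  rw [hodd, ← prod_mul_distrib] at hw
  have hs := sign_prod3 (R := ZMod (p ^ M)) hp4 hM hQ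
  have e : ∏ k ∈ range (2 * Q + 1), ((if p ∣ 2 * k then (1 : ZMod (p ^ M)) else
      (((2 * k : ℕ) : ZMod (p ^ M)) - b)) * (if p ∣ 2 * k then (1 : ZMod (p ^ M)) else
      (-1) * (((2 * k : ℕ) : ZMod (p ^ M)) + b))) =
      ∏ k ∈ range (2 * Q + 1), (FF p M b (2 * (k : ℤ)) *
        (if p ∣ 2 * k then (1 : ZMod (p ^ M)) else -1)) := by
    refine prod_congr rfl fun k _ => ?_
    have h3 : ((p : ℤ) ∣ 2 * (k : ℤ)) ↔ p ∣ 2 * k := by
      rw [show (2 * (k : ℤ)) = ((2 * k : ℕ) : ℤ) by push_cast; ring, Int.natCast_dvd_natCast]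
    unfold FF
    by_cases h : p ∣ 2 * k
    · rw [if_pos h, if_pos h, if_pos h, if_pos (h3.mpr h)]
    · rw [if_neg h, if_neg h, if_neg h, if_neg (fun h5 => h (h3.mp h5))]
      push_cast
      ring
  rw [e, prod_mul_distrib, hs] at hw
  linear_combination -hw

lemma node_rel3 {M Q : ℕ} (hp4 : p % 4 = 3) (hM : M ≠ 0) (hQ : p ^ M = 4 * Q + 1)
    (b : ZMod (p ^ M)) (hb : IsNilpotent b) (a : ℕ) (ha : p ∣ a) :
    (a % 4 = 1 → Phi (FF p M b) Q a * Bc (FF p M b) 2 a = Bc (FF p M b) 0 a) ∧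
    (a % 4 = 3 → Phi (FF p M b) Q a * Bc (FF p M b) 0 a = Bc (FF p M b) 2 a) := by
  have hD : Phi (FF p M b) Q 1 = 1 * FF p M b 1 := by
    rw [Phi_one _ _ (FF_per hM hQ b), FF_const3 hp4 hM hQ b hb]
  have h := Phi_closed (FF p M b) Q (FF_per hM hQ b) (FF_neg b) (FF_unit hM b hb) 1 hD a
  have ha1 : FF p M b a = 1 := by
    unfold FF
    rw [if_pos (by exact_mod_cast ha)]
  have h01 : FF p M b 0 = 1 := by
    unfold FF
    rw [if_pos (by simp)]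
  rw [ha1, h01] at h
  constructor
  · intro h1
    rw [h.1 h1]; ring
  · intro h1
    have := h.2 h1
    rw [mul_one] at this
    rw [this]; ring

/-- common part of the two node congruences -/
lemma node_com {M Q : ℕ} (hp4 : p % 4 = 3) (hM : M ≠ 0) (hQ : p ^ M = 4 * Q + 1)
    (i : ℕ) (y : ℤ_[p]) :
    (∀ c, IsUnit (PadicInt.toZModPow M (Zc p c (p * i) (((p : ℤ_[p]) * y) ^ 2)))) ∧
    (i % 4 = 1 → PadicInt.toZModPow M (HH p Q (((p : ℤ_[p]) * (i : ℤ_[p])) ^ 2) (((p : ℤ_[p]) * y) ^ 2)) *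
      PadicInt.toZModPow M (Zc p 0 (p * i) (((p : ℤ_[p]) * y) ^ 2)) =
      PadicInt.toZModPow M (Zc p 2 (p * i) (((p : ℤ_[p]) * y) ^ 2))) ∧
    (i % 4 = 3 → PadicInt.toZModPow M (HH p Q (((p : ℤ_[p]) * (i : ℤ_[p])) ^ 2) (((p : ℤ_[p]) * y) ^ 2)) *
      PadicInt.toZModPow M (Zc p 2 (p * i) (((p : ℤ_[p]) * y) ^ 2)) =
      PadicInt.toZModPow M (Zc p 0 (p * i) (((p : ℤ_[p]) * y) ^ 2))) := by
  set b : ZMod (p ^ M) := PadicInt.toZModPow M ((p : ℤ_[p]) * y) with hb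
  have hbn : IsNilpotent b := by
    refine ⟨M, ?_⟩
    rw [hb, ← map_pow, mul_pow, map_mul, map_pow, map_natCast]
    have : ((p : ZMod (p ^ M))) ^ M = 0 := by
      rw [← Nat.cast_pow, ZMod.natCast_self]
    rw [this, zero_mul]
  have hrel := node_rel3 hp4 hM hQ b hbn (p * i) (dvd_mul_right _ _)
  have hψa : PadicInt.toZModPow M (((p : ℤ_[p]) * (i : ℤ_[p])) ^ 2) = (((p * i : ℕ) : ZMod (p ^ M))) ^ 2 := by
    rw [map_pow, map_mul, map_natCast, map_natCast]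
    push_cast
    rfl
  have hψb : PadicInt.toZModPow M (((p : ℤ_[p]) * y) ^ 2) = b ^ 2 := by
    rw [map_pow]
  have hpi4 : (p * i) % 4 = (3 * (i % 4)) % 4 := by
    rw [Nat.mul_mod, hp4]
  rw [Phi_HH b (p * i) (dvd_mul_right _ _), ← hψa] at hrel
  rw [Bc_Zc, Bc_Zc, ← hψb, ← Zc_map, ← Zc_map, ← HH_map] at hrel
  refine ⟨?_, ?_, ?_⟩
  · intro c
    have hu := Bc_unit hM b hbn c (p * i)
    rwa [Bc_Zc, ← hψb, ← Zc_map] at hu
  · intro h
    exact hrel.2 (by rw [hpi4, h])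
  · intro h
    exact hrel.1 (by rw [hpi4, h])

lemma node_int1 {M Q : ℕ} (hp4 : p % 4 = 3) (hM : M ≠ 0) (hQ : p ^ M = 4 * Q + 1)
    {N N' : ℕ} (hN : 2 * N' + 1 = p * (2 * N + 1))
    (i : ℕ) (hi2 : i % 2 = 1) (hi : i ≤ 2 * N + 1) (y : ℤ_[p])
    (hy : NE (y : ℚ_[p])) (hpy : NE ((p : ℚ_[p]) * y)) (U V : ℤ_[p])
    (hU : T N' (((p : ℤ_[p]) * i) ^ 2) (((p : ℤ_[p]) * y) ^ 2) 1 = DD ℤ_[p] N' * U)
    (hV : TQ (N + 1) (((p : ℤ_[p]) * i) ^ 2) (((p : ℤ_[p]) * y) ^ 2) (p : ℤ_[p]) =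
      DD ℤ_[p] N * V) :
    (p : ℤ_[p]) ^ M ∣ (2 * (N : ℤ_[p]) + 2) * (p : ℤ_[p]) ^ 2 * ep ℤ_[p] p N' * U *
      HH p Q (((p : ℤ_[p]) * i) ^ 2) (((p : ℤ_[p]) * y) ^ 2) +
      V * Lp p N' (((p : ℤ_[p]) * i) ^ 2) (((p : ℤ_[p]) * y) ^ 2) := by
  set φ : ℤ_[p] →+* ℚ_[p] := PadicInt.Coe.ringHom with hφ
  have hφinj : Function.Injective φ := fun a b h => PadicInt.ext h
  have hφy : φ y = (y : ℚ_[p]) := rfl
  have h1 := congrArg φ hU
  have h0 := congrArg φ hV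
  rw [T_map, map_mul, DD_map, map_pow, map_pow, map_mul, map_mul, map_natCast, map_natCast, map_one,
    hφy] at h1
  rw [TQ_map, map_mul, DD_map, map_pow, map_pow, map_mul, map_mul, map_natCast, map_natCast,
    hφy] at h0
  have hnf := node_field1 (K := ℚ_[p]) hp.out hp4 hN i hi2 hi (y : ℚ_[p]) hy hpy (φ U) (φ V) h1 h0
  have hcom := node_com hp4 hM hQ i y
  set a1 : ℤ_[p] := ((p : ℤ_[p]) * i) ^ 2 with ha1
  set b1 : ℤ_[p] := ((p : ℤ_[p]) * y) ^ 2 with hb1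
  have hφa : φ a1 = ((p : ℚ_[p]) * i) ^ 2 := by
    rw [ha1, map_pow, map_mul, map_natCast, map_natCast]
  have hφb : φ b1 = ((p : ℚ_[p]) * (y : ℚ_[p])) ^ 2 := by
    rw [hb1, map_pow, map_mul, map_natCast, hφy]
  have hφN : φ (2 * (N : ℤ_[p]) + 2) = 2 * (N : ℚ_[p]) + 2 := by
    rw [map_add, map_mul, map_natCast, map_ofNat]
  have hφp : φ ((p : ℤ_[p]) ^ 2) = (p : ℚ_[p]) ^ 2 := by
    rw [map_pow, map_natCast]
  rw [← hφa, ← hφb, ← ep_map φ, ← Zc_map φ, ← Zc_map φ, ← Lp_map φ, ← hφN, ← hφp] at hnf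
  simp only [← map_mul, ← map_neg] at hnf
  rw [pow_dvd_iff]
  have hu0 := hcom.1 0
  have hu2 := hcom.1 2
  obtain ⟨-, hr1, hr3⟩ := hcom
  generalize Zc p 0 (p * i) b1 = Z0 at *
  generalize Zc p 2 (p * i) b1 = Z2 at *
  generalize HH p Q a1 b1 = H at *
  generalize Lp p N' a1 b1 = L at *
  generalize ep ℤ_[p] p N' = e at *
  generalize (2 * (N : ℤ_[p]) + 2) = n2 at *
  have hi4 : i % 4 = 1 ∨ i % 4 = 3 := by omega
  rcases hi4 with h4 | h4
  · have k1 := hφinj (hnf.1 h4)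
    have k2 := hr1 h4
    apply hu0.mul_left_cancel
    rw [mul_zero, ← map_mul]
    have e1 : Z0 * (n2 * (p : ℤ_[p]) ^ 2 * e * U * H + V * L) =
        n2 * (p : ℤ_[p]) ^ 2 * e * U * (H * Z0 - Z2) := by
      linear_combination k1
    rw [e1, map_mul, map_sub, map_mul _ H, k2]
    ring
  · have k1 := hφinj (hnf.2 h4)
    have k2 := hr3 h4
    apply hu2.mul_left_cancel
    rw [mul_zero, ← map_mul]
    have e1 : Z2 * (n2 * (p : ℤ_[p]) ^ 2 * e * U * H + V * L) =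
        n2 * (p : ℤ_[p]) ^ 2 * e * U * (H * Z2 - Z0) := by
      linear_combination k1
    rw [e1, map_mul, map_sub, map_mul _ H, k2]
    ring

lemma node_int2 {M Q : ℕ} (hp4 : p % 4 = 3) (hM : M ≠ 0) (hQ : p ^ M = 4 * Q + 1)
    {N N' : ℕ} (hN : 2 * N' + 1 = p * (2 * N + 1))
    (i : ℕ) (hi2 : i % 2 = 1) (hi : i ≤ 2 * N + 1) (y : ℤ_[p])
    (hy : NE (y : ℚ_[p])) (hpy : NE ((p : ℚ_[p]) * y)) (V U : ℤ_[p])
    (hV : TQ (N' + 1) (((p : ℤ_[p]) * i) ^ 2) (((p : ℤ_[p]) * y) ^ 2) 1 = DD ℤ_[p] N' * V)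
    (hU : T N (((p : ℤ_[p]) * i) ^ 2) (((p : ℤ_[p]) * y) ^ 2) (p : ℤ_[p]) = DD ℤ_[p] N * U) :
    (p : ℤ_[p]) ^ M ∣ ep ℤ_[p] p N' * V + (2 * (N' : ℤ_[p]) + 2) *
      HH p Q (((p : ℤ_[p]) * i) ^ 2) (((p : ℤ_[p]) * y) ^ 2) * U *
      Lp p N' (((p : ℤ_[p]) * i) ^ 2) (((p : ℤ_[p]) * y) ^ 2) := by
  set φ : ℤ_[p] →+* ℚ_[p] := PadicInt.Coe.ringHom with hφ
  have hφinj : Function.Injective φ := fun a b h => PadicInt.ext h
  have hφy : φ y = (y : ℚ_[p]) := rfl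
  have h1 := congrArg φ hV
  have h0 := congrArg φ hU
  rw [TQ_map, map_mul, DD_map, map_pow, map_pow, map_mul, map_mul, map_natCast, map_natCast,
    map_one, hφy] at h1
  rw [T_map, map_mul, DD_map, map_pow, map_pow, map_mul, map_mul, map_natCast, map_natCast,
    hφy] at h0
  have hnf := node_field2 (K := ℚ_[p]) hp.out hp4 hN i hi2 hi (y : ℚ_[p]) hy hpy (φ V) (φ U) h1 h0
  have hcom := node_com hp4 hM hQ i y
  set a1 : ℤ_[p] := ((p : ℤ_[p]) * i) ^ 2 with ha1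
  set b1 : ℤ_[p] := ((p : ℤ_[p]) * y) ^ 2 with hb1
  have hφa : φ a1 = ((p : ℚ_[p]) * i) ^ 2 := by
    rw [ha1, map_pow, map_mul, map_natCast, map_natCast]
  have hφb : φ b1 = ((p : ℚ_[p]) * (y : ℚ_[p])) ^ 2 := by
    rw [hb1, map_pow, map_mul, map_natCast, hφy]
  have hφN : φ (2 * (N' : ℤ_[p]) + 2) = 2 * (N' : ℚ_[p]) + 2 := by
    rw [map_add, map_mul, map_natCast, map_ofNat]
  rw [← hφa, ← hφb, ← ep_map φ, ← Zc_map φ, ← Zc_map φ, ← Lp_map φ, ← hφN] at hnf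
  simp only [← map_mul, ← map_neg] at hnf
  rw [pow_dvd_iff]
  have hu0 := hcom.1 0
  have hu2 := hcom.1 2
  obtain ⟨-, hr1, hr3⟩ := hcom
  generalize Zc p 0 (p * i) b1 = Z0 at *
  generalize Zc p 2 (p * i) b1 = Z2 at *
  generalize HH p Q a1 b1 = H at *
  generalize Lp p N' a1 b1 = L at *
  generalize ep ℤ_[p] p N' = e at *
  generalize (2 * (N' : ℤ_[p]) + 2) = n2 at *
  have hi4 : i % 4 = 1 ∨ i % 4 = 3 := by omega
  rcases hi4 with h4 | h4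
  · have k1 := hφinj (hnf.1 h4)
    have k2 := hr1 h4
    apply hu0.mul_left_cancel
    rw [mul_zero, ← map_mul]
    have e1 : Z0 * (e * V + n2 * H * U * L) = n2 * U * L * (H * Z0 - Z2) := by
      linear_combination k1
    rw [e1, map_mul, map_sub, map_mul _ H, k2]
    ring
  · have k1 := hφinj (hnf.2 h4)
    have k2 := hr3 h4
    apply hu2.mul_left_cancel
    rw [mul_zero, ← map_mul]
    have e1 : Z2 * (e * V + n2 * H * U * L) = n2 * U * L * (H * Z2 - Z0) := by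
      linear_combination k1
    rw [e1, map_mul, map_sub, map_mul _ H, k2]
    ring

end W3R

end Pool.Agent.KS6_19.SW
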