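import Pool.Agent.KS6_19.SW.RF
import Pool.Agent.KS6_19.SW.Main

set_option autoImplicit false

namespace Pool.Agent.KS6_19.SW

open Finset Polynomial

section MainR

variable {p : ℕ} [hp : Fact p.Prime]

lemma HH_unit (Q : ℕ) : IsUnit (HH p Q (0 : ℤ_[p]) 0) := by
  rw [HH_zero]
  apply IsUnit.pow
  refine Finset.prod_induction _ IsUnit (fun a b ha hb => ha.mul hb) isUnit_one (fun t _ => ?_)
  split_ifs with h
  · exact isUnit_one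
  · exact isUnit_natCast _ h

omit hp in
lemma four_dvd_pow3 (hp4 : p % 4 = 3) (k : ℕ) : ∃ Q, p ^ (2 * k) = 4 * Q + 1 := by
  have : p ^ (2 * k) % 4 = 1 := by
    rw [pow_mul, Nat.pow_mod, Nat.pow_mod p 2, hp4]
    norm_num
  exact ⟨p ^ (2 * k) / 4, by omega⟩

/-- The two-step congruence for every odd index and every prime congruent to `3` modulo `4`. -/
theorem main3 (hp4 : p % 4 = 3) (n : ℕ) (hn : n % 2 = 1) :
    ∃ z : ℤ_[p], ((swisherSum (p * (p * n)) : ℚ) : ℚ_[p]) -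
      (p : ℚ_[p]) ^ 4 * ((swisherSum n : ℚ) : ℚ_[p]) =
      (p : ℚ_[p]) ^ 8 * (n : ℚ_[p]) ^ 5 * (z : ℚ_[p]) := by
  have hp2 : p ≠ 2 := by omega
  have hpodd : p % 2 = 1 := by omega
  obtain ⟨N, hNn⟩ : ∃ N, n = 2 * N + 1 := ⟨n / 2, by omega⟩
  have hodd1 : (p * n) % 2 = 1 := by
    rw [Nat.mul_mod, hpodd, hn]
  obtain ⟨N1, hN1'⟩ : ∃ N1, p * n = 2 * N1 + 1 := ⟨p * n / 2, by omega⟩
  have hN1 : 2 * N1 + 1 = p * (2 * N + 1) := by rw [← hNn, hN1']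
  have hodd2 : (p * (p * n)) % 2 = 1 := by
    rw [Nat.mul_mod, hpodd, hodd1]
  obtain ⟨N2, hN2'⟩ : ∃ N2, p * (p * n) = 2 * N2 + 1 := ⟨p * (p * n) / 2, by omega⟩
  have hN2 : 2 * N2 + 1 = p * (2 * N1 + 1) := by rw [← hN1', hN2']
  obtain ⟨Ma, hMa⟩ := key1 (p := p) hp4 hN2
  obtain ⟨Mb, hMb⟩ := key2 (p := p) hp4 hN1
  obtain ⟨Q, hQ⟩ := four_dvd_pow3 (p := p) hp4 (Ma + Mb + 1)
  have hM0 : 2 * (Ma + Mb + 1) ≠ 0 := by omega
  obtain ⟨U, V, g1, hT2, hTQp, hR1⟩ := hMa (2 * (Ma + Mb + 1)) (by omega) hM0 Q hQ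
  obtain ⟨V', U', g2, hTQ1, hT0, hR2⟩ := hMb (2 * (Ma + Mb + 1)) (by omega) hM0 Q hQ
  -- units
  have hL2u := Lp_unit (p := p) hp2 N2
  have hL1u := Lp_unit (p := p) hp2 N1
  have h2u : ∀ m : ℕ, IsUnit ((2 : ℤ_[p]) ^ m) := by
    intro m
    have : IsUnit (((2 : ℕ) : ℤ_[p])) := isUnit_natCast 2 (fun h => hp2
      ((Nat.prime_dvd_prime_iff_eq hp.out Nat.prime_two).mp h))
    exact (by simpa using this : IsUnit (2 : ℤ_[p])).pow _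
  have hNu : IsUnit (2 * (N1 : ℤ_[p]) + 2) := by
    have h1 : (2 * (N1 : ℤ_[p]) + 2) = ((p * n + 1 : ℕ) : ℤ_[p]) := by
      rw [hN1']; push_cast; ring
    rw [h1]
    apply isUnit_natCast
    intro h
    have h2 := (Nat.dvd_add_right (dvd_mul_right p n)).mp h
    have := Nat.le_of_dvd (by norm_num) h2
    have := hp.out.two_le
    omega
  obtain ⟨c, hc⟩ := (((hNu.mul (HH_unit (p := p) Q)).mul hL2u).mul hL1u).mul
    (((h2u N).mul (h2u N1)).pow 10)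
  set φ : ℤ_[p] →+* ℚ_[p] := PadicInt.Coe.ringHom with hφ
  have hφc : ∀ z : ℤ_[p], φ z = (z : ℚ_[p]) := fun z => rfl
  have hne : ∀ j : ℕ, (2 * (j : ℚ_[p]) + 2) ^ 2 - (0 : ℚ_[p]) ^ 2 ≠ 0 := by
    intro j
    have : ((2 * j + 2 : ℕ) : ℚ_[p]) ≠ 0 := Nat.cast_ne_zero.mpr (by omega)
    push_cast at this
    rw [zero_pow (by norm_num), sub_zero]
    exact pow_ne_zero 2 this
  have k2 := S_T N2 (0 : ℚ_[p]) 0 1 hne hne
  have k0 := S_T N (0 : ℚ_[p]) 0 (p : ℚ_[p]) hne hne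
  simp only [mul_zero, ne_eq, OfNat.ofNat_ne_zero, not_false_eq_true, zero_pow] at k2 k0
  have f2 := congrArg φ hT2
  have f0 := congrArg φ hT0
  have fq1 := congrArg φ hTQ1
  have fqp := congrArg φ hTQp
  have fR1 := congrArg φ hR1
  have fR2 := congrArg φ hR2
  rw [T_map, map_zero, map_one, map_mul, DD_map] at f2
  rw [T_map, map_zero, map_natCast, map_mul, DD_map] at f0
  rw [TQ_map, map_zero, map_one, map_mul, DD_map] at fq1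
  rw [TQ_map, map_zero, map_natCast, map_mul, DD_map, TQ_hom, fq1] at fqp
  simp only [map_add, map_mul, map_pow, map_natCast, DD_map, ep_map, HH_map, Lp_map, map_zero,
    map_ofNat] at fR1 fR2
  rw [f2, LL_split hp.out hN2, DD_split hp.out hpodd hN2, LL_val] at k2
  rw [f0, LL_val] at k0
  have k1 := LL_split (R := ℚ_[p]) hp.out hN1 0 0
  rw [LL_val, LL_val, one_pow, one_mul] at k1
  have hD1 : DD ℚ_[p] N1 ≠ 0 := DD_ne_zero N1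
  have hsplit1 := DD_split (R := ℚ_[p]) hp.out hpodd hN1
  have hDD0 := DD_val (R := ℚ_[p]) N
  have hDD1 := DD_val (R := ℚ_[p]) N1
  rw [← hNn] at hDD0
  rw [← hN1'] at hDD1
  have hfac0 : ((N.factorial : ℕ) : ℚ_[p]) ≠ 0 := Nat.cast_ne_zero.mpr (Nat.factorial_ne_zero N)
  have hfac1 : ((N1.factorial : ℕ) : ℚ_[p]) ≠ 0 := Nat.cast_ne_zero.mpr (Nat.factorial_ne_zero N1)
  have hDD0' : DD ℚ_[p] N * 2 ^ N = (n : ℚ_[p]) * (N.centralBinom : ℚ_[p]) *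
      (N.factorial : ℚ_[p]) := mul_right_cancel₀ hfac0 hDD0
  have hDD1' : DD ℚ_[p] N1 * 2 ^ N1 = (p : ℚ_[p]) * (n : ℚ_[p]) * (N1.centralBinom : ℚ_[p]) *
      (N1.factorial : ℚ_[p]) := by
    have := mul_right_cancel₀ hfac1 hDD1
    rw [this]
    push_cast
    ring
  have hpK : (p : ℚ_[p]) ≠ 0 := Nat.cast_ne_zero.mpr hp.out.ne_zero
  have hc' := congrArg φ hc
  simp only [map_mul, map_pow, map_add, map_natCast, Lp_map, HH_map, map_zero, map_ofNat] at hc'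
  have hcinv : φ (c : ℤ_[p]) * φ ((c⁻¹ : ℤ_[p]ˣ) : ℤ_[p]) = 1 := by
    rw [← map_mul, Units.mul_inv, map_one]
  rw [swisher_cast, swisher_cast, show (p * (p * n) - 1) / 2 = N2 by omega,
    show (n - 1) / 2 = N by omega]
  refine ⟨(c⁻¹ : ℤ_[p]ˣ) * ((((2 : ℤ_[p]) ^ N) ^ 10 * Lp p N1 0 0 * (N1.centralBinom : ℤ_[p]) ^ 5 *
    g1) - (((2 : ℤ_[p]) ^ N1) ^ 10 * Lp p N2 0 0 * (N.centralBinom : ℤ_[p]) ^ 5 * g2)), ?_⟩
  rw [← hφc]
  simp only [map_mul, map_pow, map_sub, map_natCast, Lp_map, map_zero, map_ofNat]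
  generalize S N2 (0 : ℚ_[p]) 0 = S2 at *
  generalize S N (0 : ℚ_[p]) 0 = S0 at *
  generalize HH p Q (0 : ℚ_[p]) 0 = H at *
  generalize Lp p N1 (0 : ℚ_[p]) 0 = L1 at *
  generalize Lp p N2 (0 : ℚ_[p]) 0 = L2 at *
  generalize ep ℚ_[p] p N1 = e1 at *
  generalize ep ℚ_[p] p N2 = e2 at *
  generalize (N.factorial : ℚ_[p]) = F0 at *
  generalize (N1.factorial : ℚ_[p]) = F1 at *
  generalize (N.centralBinom : ℚ_[p]) = B0 at *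
  generalize (N1.centralBinom : ℚ_[p]) = B1 at *
  generalize φ U = u at *
  generalize φ U' = u' at *
  generalize φ V = v at *
  generalize φ V' = v' at *
  generalize φ g1 = g1' at *
  generalize φ g2 = g2' at *
  generalize φ (c : ℤ_[p]) = cc at *
  generalize φ ((c⁻¹ : ℤ_[p]ˣ) : ℤ_[p]) = ci at *
  generalize (n : ℚ_[p]) = n' at *
  generalize (2 * (N1 : ℚ_[p]) + 2) = m2 at *
  -- v in terms of v'
  have hv : v = (p : ℚ_[p]) ^ (4 * (N1 + 1)) * v' := by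
    apply mul_left_cancel₀ hD1
    linear_combination -fqp
  have P1 : (p : ℚ_[p]) ^ (4 * (N1 + 1)) = (p : ℚ_[p]) ^ (4 * N1) * (p : ℚ_[p]) ^ 4 := by
    rw [← pow_add]; congr 1
  have P2 : ((p : ℚ_[p]) ^ (N1 + 1)) ^ 4 = (p : ℚ_[p]) ^ (4 * N1) * (p : ℚ_[p]) ^ 4 := by
    rw [← pow_mul, ← pow_add]; congr 1; ring
  have P3 : ((p : ℚ_[p]) ^ (N + 1)) ^ 4 = (p : ℚ_[p]) ^ (4 * N) * (p : ℚ_[p]) ^ 4 := by
    rw [← pow_mul, ← pow_add]; congr 1; ring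
  have P4 : (p : ℚ_[p]) ^ (N + 1) = (p : ℚ_[p]) ^ N * (p : ℚ_[p]) := pow_succ _ _
  have P5 : (p : ℚ_[p]) ^ (N1 + 1) = (p : ℚ_[p]) ^ N1 * (p : ℚ_[p]) := pow_succ _ _
  rw [hv, P1, mul_pow, P2] at fR1
  rw [mul_pow, P3] at fR2
  rw [P4] at hsplit1
  rw [P5] at k2
  generalize DD ℚ_[p] N1 = D1 at *
  generalize DD ℚ_[p] N = D0 at *
  have hp4N1 : (p : ℚ_[p]) ^ (4 * N1) ≠ 0 := pow_ne_zero _ hpK
  have hpN1 : (p : ℚ_[p]) ^ N1 ≠ 0 := pow_ne_zero _ hpK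
  generalize (p : ℚ_[p]) ^ (4 * N1) = X1 at *
  generalize (p : ℚ_[p]) ^ (4 * N) = X0 at *
  generalize (p : ℚ_[p]) ^ N = Y0 at *
  generalize (p : ℚ_[p]) ^ N1 = Y1 at *
  generalize (2 : ℚ_[p]) ^ N1 = w1 at *
  generalize (2 : ℚ_[p]) ^ N = w0 at *
  generalize (p : ℚ_[p]) = P at *
  -- q1 : S2 X1 (w1 F1)^5 L2 = P D1 e2 u
  have q1 : S2 * (X1 * (w1 * F1) ^ 5) * L2 = P * D1 * e2 * u := by
    apply mul_left_cancel₀ hpN1
    linear_combination k2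
  -- R1 : m2 H S2 (w1 F1)^5 L2 + P^3 D1 v' L2 = P^3 D1^5 g1
  have R1 : m2 * H * S2 * (w1 * F1) ^ 5 * L2 + P ^ 3 * D1 * v' * L2 = P ^ 3 * D1 ^ 5 * g1' := by
    apply mul_left_cancel₀ (mul_ne_zero hp4N1 (pow_ne_zero 2 hpK))
    linear_combination P * D1 * fR1 + m2 * P ^ 2 * H * q1
  have R2 : D1 * v' + m2 * H * P * S0 * (w1 * F1) ^ 5 = P ^ 5 * (Y0 * X0) * D0 ^ 5 * g2' := by
    linear_combination Y0 * P * D0 * fR2 + v' * hsplit1 + m2 * H * P * Y0 * L1 * k0 +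
      m2 * H * P * S0 * k1
  have R3 : m2 * H * L2 * (w1 * F1) ^ 5 * (S2 - P ^ 4 * S0) = P ^ 3 * D1 ^ 5 * g1' -
      P ^ 8 * (Y0 * X0) * D0 ^ 5 * L2 * g2' := by
    linear_combination R1 - P ^ 3 * L2 * R2
  have R4 : (Y0 * X0) * D0 ^ 5 * w0 ^ 10 * L1 = (n' * B0) ^ 5 * (w1 * F1) ^ 5 := by
    have h5 : (D0 * w0) ^ 5 = (n' * B0 * F0) ^ 5 := by rw [hDD0']
    linear_combination (Y0 * X0 * w0 ^ 5 * L1) * h5 - (n' * B0) ^ 5 * k1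
  have R5 : (D1 * w1) ^ 5 = (P * n' * B1 * F1) ^ 5 := by rw [hDD1']
  have R6 : F1 ^ 5 * (cc * (S2 - P ^ 4 * S0)) = F1 ^ 5 * (P ^ 8 * n' ^ 5 *
      (w0 ^ 10 * L1 * B1 ^ 5 * g1' - w1 ^ 10 * L2 * B0 ^ 5 * g2')) := by
    rw [hc']
    linear_combination (L1 * w0 ^ 10 * w1 ^ 5) * R3 + (P ^ 3 * g1' * L1 * w0 ^ 10) * R5 -
      (P ^ 8 * L2 * g2' * w1 ^ 5) * R4
  have R7 := mul_left_cancel₀ (pow_ne_zero 5 hfac1) R6
  linear_combination ci * R7 - (S2 - P ^ 4 * S0) * hcinv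
end MainR

end Pool.Agent.KS6_19.SW
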