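import Pool.Agent.KS6_19.SW.RC

set_option autoImplicit false

namespace Pool.Agent.KS6_19.SW

open Finset

section NodeFieldR

variable {K : Type*} [Field K] [CharZero K]

omit [CharZero K] in
lemma A_splitR {p : ℕ} (hp : p.Prime) (hp4 : p % 4 = 3) (c i : ℕ) (hc : c % 2 = 0) (y : K) :
    A c (p * i) ((p : K) * y) = Zc p c (p * i) (((p : K) * y) ^ 2) * ((p : K) ^ 2) ^ (cnt c i) *
      A c i y := by
  have hp0 : 0 < p := hp.pos
  have hmod : ∀ r : ℕ, (p * r) % 4 = c ↔ r % 4 = c := by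
    intro r
    have h1 : (p * r) % 4 = (3 * (r % 4)) % 4 := by
      rw [Nat.mul_mod, hp4]
    omega
  have h1 : A c (p * i) ((p : K) * y) = Zc p c (p * i) (((p : K) * y) ^ 2) *
      (∏ r ∈ (range (p * i)).filter (fun r => r % 4 = c ∧ r ≠ 0),
        (if p ∣ r then ((r : K) ^ 2 - ((p : K) * y) ^ 2) else 1)) := by
    unfold A Zc
    rw [← prod_mul_distrib]
    refine prod_congr rfl fun j _ => ?_
    split_ifs <;> ring
  rw [h1, mul_assoc]
  congr 1
  rw [← prod_filter, filter_filter]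
  unfold A cnt
  rw [← prod_const, ← prod_mul_distrib]
  symm
  refine prod_bij (fun r _ => p * r) ?_ ?_ ?_ ?_
  · intro r hr
    rw [mem_filter, mem_range] at hr
    rw [mem_filter, mem_range]
    refine ⟨Nat.mul_lt_mul_of_pos_left hr.1 hp0, ⟨?_, ?_⟩, dvd_mul_right _ _⟩
    · exact (hmod r).mpr hr.2.1
    · exact Nat.mul_ne_zero (by omega) hr.2.2
  · intro x _ y _ hxy
    exact Nat.eq_of_mul_eq_mul_left hp0 hxy
  · intro j hj
    rw [mem_filter, mem_range] at hj
    obtain ⟨hj1, ⟨hj2, hj3⟩, e, he⟩ := hj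
    refine ⟨e, ?_, he.symm⟩
    rw [mem_filter, mem_range]
    subst he
    refine ⟨Nat.lt_of_mul_lt_mul_left hj1, (hmod e).mp hj2, ?_⟩
    rintro rfl
    simp at hj3
  · intro r _
    push_cast
    ring

lemma DD_ne_zero (N : ℕ) : DD K N ≠ 0 := by
  unfold DD
  rw [prod_ne_zero_iff]
  intro m _
  have : ((2 * m + 1 : ℕ) : K) ≠ 0 := Nat.cast_ne_zero.mpr (by omega)
  push_cast at this
  exact this

/-- First node relation: the original sum at level `N'` against the companion at level `N`. -/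
lemma node_field1 {p N N' : ℕ} (hp : p.Prime) (hp4 : p % 4 = 3)
    (hN : 2 * N' + 1 = p * (2 * N + 1)) (i : ℕ) (hi2 : i % 2 = 1) (hi : i ≤ 2 * N + 1) (y : K)
    (hy : NE y) (hpy : NE ((p : K) * y)) (U V : K)
    (hU : T N' (((p : K) * i) ^ 2) (((p : K) * y) ^ 2) 1 = DD K N' * U)
    (hV : TQ (N + 1) (((p : K) * i) ^ 2) (((p : K) * y) ^ 2) (p : K) = DD K N * V) :
    (i % 4 = 1 → (2 * (N : K) + 2) * (p : K) ^ 2 * ep K p N' * U *
        Zc p 2 (p * i) (((p : K) * y) ^ 2) =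
      - (Zc p 0 (p * i) (((p : K) * y) ^ 2) * V *
        Lp p N' (((p : K) * i) ^ 2) (((p : K) * y) ^ 2))) ∧
    (i % 4 = 3 → (2 * (N : K) + 2) * (p : K) ^ 2 * ep K p N' * U *
        Zc p 0 (p * i) (((p : K) * y) ^ 2) =
      - (Zc p 2 (p * i) (((p : K) * y) ^ 2) * V *
        Lp p N' (((p : K) * i) ^ 2) (((p : K) * y) ^ 2))) := by
  have hpK : (p : K) ≠ 0 := Nat.cast_ne_zero.mpr hp.ne_zero
  have hNEi : NE (i : K) := NE_odd i hi2
  have hpi2 : (p * i) % 2 = 1 := by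
    rw [Nat.mul_mod, show p % 2 = 1 by omega, hi2]
  have hNEpi : NE ((p : K) * i) := by
    have := NE_odd (K := K) (p * i) hpi2
    push_cast at this
    exact this
  have hs1 := S_T N' ((p : K) * i) ((p : K) * y) 1 hNEpi.succ hpy.succ
  rw [one_mul, one_mul] at hs1
  have hs0 := RS_T N (i : K) y (p : K) hNEi hy
  rw [hU] at hs1
  rw [hV] at hs0
  rw [LL_split hp hN, DD_split hp (by omega) hN] at hs1
  have hD0 : DD K N ≠ 0 := DD_ne_zero N
  have hle : p * i ≤ p * (2 * N + 1) := Nat.mul_le_mul_left p hi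
  have hc1 := closed (K := K) (p * i) N' ((p : K) * y) (by omega) hpy
  have hc0 := closedR (K := K) i (N + 1) y (by omega) hy
  rw [A_splitR hp hp4 0 i (by norm_num), A_splitR hp hp4 2 i (by norm_num)] at hc1
  have hA0 := A_ne_zero 0 i (by norm_num) y hy
  have hA2 := A_ne_zero 2 i (by norm_num) y hy
  have hpi4 : (p * i) % 4 = (3 * (i % 4)) % 4 := by
    rw [Nat.mul_mod, hp4]
  push_cast at hc1
  generalize S N' ((p : K) * i) ((p : K) * y) = S1 at *
  generalize RS (N + 1) (i : K) y = R0 at *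
  generalize Zc p 0 (p * i) (((p : K) * y) ^ 2) = Z0 at *
  generalize Zc p 2 (p * i) (((p : K) * y) ^ 2) = Z2 at *
  generalize LL N (((p : K) * i) ^ 2) (((p : K) * y) ^ 2) (p : K) = L0 at *
  generalize Lp p N' (((p : K) * i) ^ 2) (((p : K) * y) ^ 2) = L1 at *
  generalize A 0 i y = A0 at *
  generalize A 2 i y = A2 at *
  generalize ep K p N' = e at *
  generalize DD K N = D at *
  have hcn := cnt_eq i
  constructor
  · intro h4
    have e1 := hc1.2 (by rw [hpi4, h4])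
    have e0 := hc0.1 h4
    have hcc := hcn.1 h4
    rw [hcc] at e1
    have e2 : S1 * Z2 = (p : K) ^ 3 * Z0 * R0 := by
      apply mul_right_cancel₀ (mul_ne_zero (pow_ne_zero (cnt 2 i) (pow_ne_zero 2 hpK)) hA2)
      linear_combination e1 - (p : K) ^ 3 * Z0 * ((p : K) ^ 2) ^ (cnt 2 i) * e0
    apply mul_left_cancel₀ (mul_ne_zero (pow_ne_zero N hpK) hD0)
    linear_combination (-Z2 * (2 * (N : K) + 2) * (p : K)) * hs1 +
      ((2 * (N : K) + 2) * (p : K) ^ (N + 1) * L0 * L1) * e2 + (p : K) ^ N * Z0 * L1 * hs0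
  · intro h4
    have e1 := hc1.1 (by rw [hpi4, h4])
    have e0 := hc0.2 h4
    have hcc := hcn.2 h4
    rw [hcc] at e1
    have e2 : S1 * Z0 = (p : K) ^ 3 * Z2 * R0 := by
      apply mul_right_cancel₀ (mul_ne_zero (pow_ne_zero (cnt 0 i) (pow_ne_zero 2 hpK)) hA0)
      rw [pow_succ] at e1
      linear_combination e1 - (p : K) ^ 3 * Z2 * ((p : K) ^ 2) ^ (cnt 0 i) * e0
    apply mul_left_cancel₀ (mul_ne_zero (pow_ne_zero N hpK) hD0)
    linear_combination (-Z0 * (2 * (N : K) + 2) * (p : K)) * hs1 +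
      ((2 * (N : K) + 2) * (p : K) ^ (N + 1) * L0 * L1) * e2 + (p : K) ^ N * Z2 * L1 * hs0

/-- Second node relation: the companion sum at level `N'` against the original at level `N`. -/
lemma node_field2 {p N N' : ℕ} (hp : p.Prime) (hp4 : p % 4 = 3)
    (hN : 2 * N' + 1 = p * (2 * N + 1)) (i : ℕ) (hi2 : i % 2 = 1) (hi : i ≤ 2 * N + 1) (y : K)
    (hy : NE y) (hpy : NE ((p : K) * y)) (V U : K)
    (hV : TQ (N' + 1) (((p : K) * i) ^ 2) (((p : K) * y) ^ 2) 1 = DD K N' * V)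
    (hU : T N (((p : K) * i) ^ 2) (((p : K) * y) ^ 2) (p : K) = DD K N * U) :
    (i % 4 = 1 → ep K p N' * V * Zc p 0 (p * i) (((p : K) * y) ^ 2) =
      - ((2 * (N' : K) + 2) * Zc p 2 (p * i) (((p : K) * y) ^ 2) * U *
        Lp p N' (((p : K) * i) ^ 2) (((p : K) * y) ^ 2))) ∧
    (i % 4 = 3 → ep K p N' * V * Zc p 2 (p * i) (((p : K) * y) ^ 2) =
      - ((2 * (N' : K) + 2) * Zc p 0 (p * i) (((p : K) * y) ^ 2) * U *
        Lp p N' (((p : K) * i) ^ 2) (((p : K) * y) ^ 2))) := by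
  have hpK : (p : K) ≠ 0 := Nat.cast_ne_zero.mpr hp.ne_zero
  have hNEi : NE (i : K) := NE_odd i hi2
  have hpi2 : (p * i) % 2 = 1 := by
    rw [Nat.mul_mod, show p % 2 = 1 by omega, hi2]
  have hNEpi : NE ((p : K) * i) := by
    have := NE_odd (K := K) (p * i) hpi2
    push_cast at this
    exact this
  have hs1 := RS_T N' ((p : K) * i) ((p : K) * y) 1 hNEpi hpy
  rw [one_mul, one_mul] at hs1
  have hs0 := S_T N (i : K) y (p : K) hNEi.succ hy.succ
  rw [hV] at hs1
  rw [hU] at hs0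
  rw [LL_split hp hN, DD_split hp (by omega) hN] at hs1
  have hD0 : DD K N ≠ 0 := DD_ne_zero N
  have hle : p * i ≤ p * (2 * N + 1) := Nat.mul_le_mul_left p hi
  have hc1 := closedR (K := K) (p * i) (N' + 1) ((p : K) * y) (by omega) hpy
  have hc0 := closed (K := K) i N y (by omega) hy
  rw [A_splitR hp hp4 0 i (by norm_num), A_splitR hp hp4 2 i (by norm_num)] at hc1
  have hA0 := A_ne_zero 0 i (by norm_num) y hy
  have hA2 := A_ne_zero 2 i (by norm_num) y hy
  have hpi4 : (p * i) % 4 = (3 * (i % 4)) % 4 := by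
    rw [Nat.mul_mod, hp4]
  push_cast at hc1
  generalize RS (N' + 1) ((p : K) * i) ((p : K) * y) = R1 at *
  generalize S N (i : K) y = S0 at *
  generalize Zc p 0 (p * i) (((p : K) * y) ^ 2) = Z0 at *
  generalize Zc p 2 (p * i) (((p : K) * y) ^ 2) = Z2 at *
  generalize LL N (((p : K) * i) ^ 2) (((p : K) * y) ^ 2) (p : K) = L0 at *
  generalize Lp p N' (((p : K) * i) ^ 2) (((p : K) * y) ^ 2) = L1 at *
  generalize A 0 i y = A0 at *
  generalize A 2 i y = A2 at *
  generalize ep K p N' = e at *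
  generalize DD K N = D at *
  have hcn := cnt_eq i
  constructor
  · intro h4
    have e1 := hc1.2 (by rw [hpi4, h4])
    have e0 := hc0.1 h4
    have hcc := hcn.1 h4
    rw [hcc] at e1
    have e2 : R1 * Z0 = (p : K) * Z2 * S0 := by
      apply mul_right_cancel₀ (mul_ne_zero (pow_ne_zero (cnt 2 i) (pow_ne_zero 2 hpK)) hA0)
      linear_combination e1 - (p : K) * Z2 * ((p : K) ^ 2) ^ (cnt 2 i) * e0
    apply mul_left_cancel₀ (mul_ne_zero (pow_ne_zero (N + 1) hpK) hD0)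
    linear_combination Z0 * hs1 -
      ((2 * (N' : K) + 2) * (p : K) ^ N * L0 * L1) * e2 -
      (2 * (N' : K) + 2) * (p : K) ^ (N + 1) * Z2 * L1 * hs0
  · intro h4
    have e1 := hc1.1 (by rw [hpi4, h4])
    have e0 := hc0.2 h4
    have hcc := hcn.2 h4
    rw [hcc] at e1
    have e2 : R1 * Z2 = (p : K) * Z0 * S0 := by
      apply mul_right_cancel₀ (mul_ne_zero (pow_ne_zero (cnt 0 i + 1) (pow_ne_zero 2 hpK)) hA2)
      linear_combination e1 - (p : K) * Z0 * ((p : K) ^ 2) ^ (cnt 0 i + 1) * e0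
    apply mul_left_cancel₀ (mul_ne_zero (pow_ne_zero (N + 1) hpK) hD0)
    linear_combination Z2 * hs1 -
      ((2 * (N' : K) + 2) * (p : K) ^ N * L0 * L1) * e2 -
      (2 * (N' : K) + 2) * (p : K) ^ (N + 1) * Z0 * L1 * hs0

end NodeFieldR

end Pool.Agent.KS6_19.SW
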